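import Pool.Agent.W_MP_68f289_gt.Defs

/-!
Lebesgue measure on `E n` is an additive Haar measure.
-/

open MeasureTheory

namespace Pool.Agent.W_68f289_t6

open Pool.Agent.W_MP_68f289_gt

instance haarE (n : ℕ) : (volume : Measure (E n)).IsAddHaarMeasure :=
  Measure.prod.instIsAddHaarMeasure _ _

end Pool.Agent.W_68f289_t6
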