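import Pool.Agent.W_MP_68f289_gt.Defs

/-!
Definitions used in the statement of the Calabi dichotomy.
-/

open Set Metric Topology Pool.Agent.W_MP_68f289_gt

namespace Pool.Agent.W_68f289_t6

/-- the integral of a Hamiltonian over space and time (the Calabi invariant of its time-one map) -/
noncomputable def cal {n : ℕ} (H : ℝ → E n → ℝ) : ℝ := ∫ t in (0 : ℝ)..1, ∫ x, H t x

variable {n : ℕ}

/-- `f` extends the Calabi homomorphism: on the time-one map of a smooth Hamiltonian `H` with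
compact support in the ball it is the integral of `H` over space and time -/
def ExtCal {L : Subgroup (E n ≃ₜ E n)} (f : Ty L →* Multiplicative ℝ) : Prop :=
  ∀ (u : Ty L) (H : ℝ → E n → ℝ) (ψ : ℝ → E n → E n), HIso n H ψ →
    (∀ x, (u : E n ≃ₜ E n) x = ψ 1 x) → f u = Multiplicative.ofAdd (cal H)

/-- `N` contains Hamiltonian diffeomorphisms of every Calabi invariant -/
def AllCal {L : Subgroup (E n ≃ₜ E n)} (N : Subgroup (Ty L)) : Prop :=
  ∀ c : ℝ, ∃ u ∈ N, ∃ (H : ℝ → E n → ℝ) (ψ : ℝ → E n → E n), HIso n H ψ ∧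
    (∀ x, (u : E n ≃ₜ E n) x = ψ 1 x) ∧ cal H = c

/-- stability under homotheties: with `g` the group `L` contains `x ↦ s g(x / s)`, `0 < s ≤ 1` -/
def Scal (L : Subgroup (E n ≃ₜ E n)) : Prop :=
  ∀ g ∈ L, ∀ s : ℝ, 0 < s → s ≤ 1 → ∃ g' ∈ L, ∀ x : E n, g' (s • x) = s • g x

end Pool.Agent.W_68f289_t6
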