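import Pool.Agent.W_MP_68f289_gt.Gn
import Pool.Agent.W_68f289_t6.Haar
import Pool.Agent.W_68f289_t6.Stm

/-!
The Calabi integral of a Hamiltonian: concatenation, reversal, homotheties.
-/

open Set Metric Topology MeasureTheory
open scoped NNReal ContDiff

namespace Pool.Agent.W_68f289_t6

open Pool.Agent.W_MP_68f289_gt

variable {n : ℕ}

/-- first reparametrisation of time -/
noncomputable def r1 (t : ℝ) : ℝ := th (3 * t - 0)

/-- second reparametrisation of time -/
noncomputable def r2 (t : ℝ) : ℝ := th (3 * t - 2)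

/-- the Hamiltonian which generates first the isotopy of `H`, then the isotopy of `H'` -/
noncomputable def conc (H H' : ℝ → E n → ℝ) : ℝ → E n → ℝ :=
  fun t x => deriv r1 t * H (r1 t) x + deriv r2 t * H' (r2 t) x

/-- the concatenated isotopy -/
noncomputable def concf (ψ ψ' : ℝ → E n → E n) : ℝ → E n → E n :=
  fun t x => ψ' (r2 t) (ψ (r1 t) x)

lemma r1_smooth : ContDiff ℝ ((⊤ : ℕ∞) : WithTop ℕ∞) r1 := th_comp_smooth 3 0

lemma r2_smooth : ContDiff ℝ ((⊤ : ℕ∞) : WithTop ℕ∞) r2 := th_comp_smooth 3 2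

lemma r1_one : r1 1 = 1 := Real.smoothTransition.one_of_one_le (by norm_num)

lemma r2_one : r2 1 = 1 := Real.smoothTransition.one_of_one_le (by norm_num)

lemma r1_zero : r1 0 = 0 := Real.smoothTransition.zero_of_nonpos (by norm_num)

lemma r2_zero : r2 0 = 0 := Real.smoothTransition.zero_of_nonpos (by norm_num)

lemma r1_ev {t : ℝ} (ht : 1 / 3 < t) : r1 =ᶠ[𝓝 t] fun _ => 1 := by
  filter_upwards [Ioi_mem_nhds ht] with s hs
  exact Real.smoothTransition.one_of_one_le (by have : 1 / 3 < s := hs; linarith)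

lemma r2_ev {t : ℝ} (ht : t < 2 / 3) : r2 =ᶠ[𝓝 t] fun _ => 0 := by
  filter_upwards [Iio_mem_nhds ht] with s hs
  exact Real.smoothTransition.zero_of_nonpos (by have : s < 2 / 3 := hs; linarith)

lemma r1_der (t : ℝ) : HasDerivAt r1 (deriv r1 t) t :=
  (r1_smooth.differentiable (by simp) t).hasDerivAt

lemma r2_der (t : ℝ) : HasDerivAt r2 (deriv r2 t) t :=
  (r2_smooth.differentiable (by simp) t).hasDerivAt

lemma conc_iso {H H' : ℝ → E n → ℝ} {ψ ψ' : ℝ → E n → E n} (h : HIso n H ψ) (h' : HIso n H' ψ') :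
    HIso n (conc H H') (concf ψ ψ') := by
  have hr1d : ContDiff ℝ ((⊤ : ℕ∞) : WithTop ℕ∞) (deriv r1) :=
    (contDiff_infty_iff_deriv.1 r1_smooth).2
  have hr2d : ContDiff ℝ ((⊤ : ℕ∞) : WithTop ℕ∞) (deriv r2) :=
    (contDiff_infty_iff_deriv.1 r2_smooth).2
  refine ⟨?_, ?_, ?_, ?_⟩
  · refine ContDiff.add ?_ ?_
    · exact (hr1d.comp contDiff_fst).mul
        (h.smooth.comp ((r1_smooth.comp contDiff_fst).prodMk contDiff_snd))
    · exact (hr2d.comp contDiff_fst).mul
        (h'.smooth.comp ((r2_smooth.comp contDiff_fst).prodMk contDiff_snd))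
  · obtain ⟨K, hK, hKB, hKs⟩ := h.supp
    obtain ⟨K', hK', hKB', hKs'⟩ := h'.supp
    refine ⟨K ∪ K', hK.union hK', union_subset hKB hKB', fun t x hx => ?_⟩
    rw [mem_union, not_or] at hx
    unfold conc
    rw [hKs _ _ hx.1, hKs' _ _ hx.2]; ring
  · intro x
    unfold concf
    rw [r1_zero, r2_zero, h.zero, h'.zero]
  · intro t x
    unfold concf conc
    rcases lt_or_ge t (2 / 3) with ht | ht
    · have e0 : r2 t = 0 := (r2_ev ht).eq_of_nhds
      have e1 : deriv r2 t = 0 := by rw [(r2_ev ht).deriv_eq, deriv_const]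
      have e2 : (fun s => ψ' (r2 s) (ψ (r1 s) x)) =ᶠ[𝓝 t] fun s => ψ (r1 s) x := by
        filter_upwards [r2_ev ht] with s hs
        rw [hs, h'.zero]
      refine HasDerivAt.congr_of_eventuallyEq ?_ e2
      have e3 : (fun x => deriv r1 t * H (r1 t) x + deriv r2 t * H' (r2 t) x) =
          fun x => deriv r1 t * H (r1 t) x := by
        funext y; rw [e1]; ring
      rw [e3, XH_const_mul (h.smooth_t _ _), e0, h'.zero]
      exact (h.der (r1 t) x).scomp t (r1_der t)
    · have ht' : 1 / 3 < t := by linarith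
      have e0 : r1 t = 1 := (r1_ev ht').eq_of_nhds
      have e1 : deriv r1 t = 0 := by rw [(r1_ev ht').deriv_eq, deriv_const]
      have e2 : (fun s => ψ' (r2 s) (ψ (r1 s) x)) =ᶠ[𝓝 t] fun s => ψ' (r2 s) (ψ 1 x) := by
        filter_upwards [r1_ev ht'] with s hs
        rw [hs]
      refine HasDerivAt.congr_of_eventuallyEq ?_ e2
      have e3 : (fun x => deriv r1 t * H (r1 t) x + deriv r2 t * H' (r2 t) x) =
          fun x => deriv r2 t * H' (r2 t) x := by
        funext y; rw [e1]; ring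
      rw [e3, XH_const_mul (h'.smooth_t _ _), e0]
      exact (h'.der (r2 t) (ψ 1 x)).scomp t (r2_der t)

lemma concf_one {ψ ψ' : ℝ → E n → E n} (x : E n) : concf ψ ψ' 1 x = ψ' 1 (ψ 1 x) := by
  unfold concf
  rw [r1_one, r2_one]

/-- the integral over space is a continuous function of time -/
lemma cont_int {H : ℝ → E n → ℝ} {ψ : ℝ → E n → E n} (h : HIso n H ψ) :
    Continuous fun t => ∫ x, H t x := by
  obtain ⟨K, hK, _, hKs⟩ := h.supp
  have h1 : ∀ t, ∫ x, H t x = ∫ x in K, H t x := by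
    intro t
    rw [setIntegral_eq_integral_of_forall_compl_eq_zero]
    exact fun x hx => hKs t x hx
  simp only [h1]
  exact continuous_parametric_integral_of_continuous h.smooth.continuous hK

lemma integrable_t {H : ℝ → E n → ℝ} {ψ : ℝ → E n → E n} (h : HIso n H ψ) (t : ℝ) :
    Integrable (H t) := by
  obtain ⟨K, hK, _, hKs⟩ := h.supp
  have hc : Continuous (H t) := h.smooth.continuous.comp (continuous_const.prodMk continuous_id)
  refine hc.integrable_of_hasCompactSupport ?_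
  exact HasCompactSupport.intro hK (fun x hx => hKs t x hx)

lemma cal_conc {H H' : ℝ → E n → ℝ} {ψ ψ' : ℝ → E n → E n} (h : HIso n H ψ)
    (h' : HIso n H' ψ') : cal (conc H H') = cal H + cal H' := by
  have hr1d : Continuous (deriv r1) := (contDiff_infty_iff_deriv.1 r1_smooth).2.continuous
  have hr2d : Continuous (deriv r2) := (contDiff_infty_iff_deriv.1 r2_smooth).2.continuous
  have e1 : ∀ t, ∫ x, conc H H' t x = (∫ x, H (r1 t) x) * deriv r1 t +
      (∫ x, H' (r2 t) x) * deriv r2 t := by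
    intro t
    unfold conc
    rw [integral_add ((integrable_t h _).const_mul _) ((integrable_t h' _).const_mul _),
      integral_const_mul, integral_const_mul]
    ring
  have h1 := cont_int h
  have h2 := cont_int h'
  have e2 : ∫ t in (0 : ℝ)..1, (∫ x, H (r1 t) x) * deriv r1 t = cal H := by
    have := intervalIntegral.integral_comp_mul_deriv (a := 0) (b := 1) (f := r1)
      (f' := deriv r1) (g := fun s => ∫ x, H s x) (fun t _ => r1_der t) hr1d.continuousOn h1
    rw [r1_zero, r1_one] at this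
    exact this
  have e3 : ∫ t in (0 : ℝ)..1, (∫ x, H' (r2 t) x) * deriv r2 t = cal H' := by
    have := intervalIntegral.integral_comp_mul_deriv (a := 0) (b := 1) (f := r2)
      (f' := deriv r2) (g := fun s => ∫ x, H' s x) (fun t _ => r2_der t) hr2d.continuousOn h2
    rw [r2_zero, r2_one] at this
    exact this
  unfold cal at *
  simp only [e1]
  rw [intervalIntegral.integral_add, e2, e3]
  · exact ((h1.comp r1_smooth.continuous).mul hr1d).intervalIntegrable _ _
  · exact ((h2.comp r2_smooth.continuous).mul hr2d).intervalIntegrable _ _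

/-- the reversed Hamiltonian -/
def rev (H : ℝ → E n → ℝ) : ℝ → E n → ℝ := fun t x => (-1) * H (1 - t) x

/-- the reversed isotopy; `u` is the time-one map -/
def revf (u : E n ≃ₜ E n) (ψ : ℝ → E n → E n) : ℝ → E n → E n := fun t x => ψ (1 - t) (u⁻¹ x)

lemma rev_iso {H : ℝ → E n → ℝ} {ψ : ℝ → E n → E n} (h : HIso n H ψ) {u : E n ≃ₜ E n}
    (hu : ∀ x, u x = ψ 1 x) : HIso n (rev H) (revf u ψ) := by
  unfold rev revf
  refine ⟨?_, ?_, ?_, ?_⟩
  · exact contDiff_const.mul (h.smooth.comp ((contDiff_const.sub contDiff_fst).prodMk contDiff_snd))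
  · obtain ⟨K, hK, hKB, hKs⟩ := h.supp
    exact ⟨K, hK, hKB, fun t x hx => by rw [hKs _ _ hx, mul_zero]⟩
  · intro x
    rw [sub_zero, ← hu]
    exact u.apply_symm_apply x
  · intro t x
    rw [XH_const_mul (h.smooth_t _ _)]
    have h1 : HasDerivAt (fun s : ℝ => 1 - s) (-1) t := by
      simpa using (hasDerivAt_id t).const_sub 1
    exact (h.der (1 - t) (u⁻¹ x)).scomp t h1

lemma revf_one {H : ℝ → E n → ℝ} {ψ : ℝ → E n → E n} (h : HIso n H ψ) (u : E n ≃ₜ E n)
    (x : E n) : revf u ψ 1 x = u⁻¹ x := by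
  unfold revf
  rw [sub_self, h.zero]

lemma cal_rev (H : ℝ → E n → ℝ) : cal (rev H) = -cal H := by
  unfold cal rev
  have e : ∀ t : ℝ, ∫ x, (-1) * H (1 - t) x = -∫ x, H (1 - t) x := by
    intro t
    rw [integral_const_mul]; ring
  simp only [e]
  rw [intervalIntegral.integral_neg,
    intervalIntegral.integral_comp_sub_left (fun t => ∫ x, H t x) 1]
  simp

/-- the Hamiltonian transported by the homothety `x ↦ s x` -/
noncomputable def scH (s : ℝ) (H : ℝ → E n → ℝ) : ℝ → E n → ℝ :=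
  fun t x => s ^ 2 * H t (s⁻¹ • x)

/-- the isotopy transported by the homothety -/
noncomputable def scf (s : ℝ) (ψ : ℝ → E n → E n) : ℝ → E n → E n :=
  fun t x => s • ψ t (s⁻¹ • x)

lemma smul_mem_Bl {s : ℝ} (h0 : 0 < s) (h1 : s ≤ 1) {x : E n} (hx : x ∈ Bl n) : s • x ∈ Bl n := by
  rw [mem_Bl] at hx ⊢
  rw [en_smul, abs_of_pos h0]
  have := en_nonneg x
  nlinarith

lemma scH_iso {H : ℝ → E n → ℝ} {ψ : ℝ → E n → E n} (h : HIso n H ψ) {s : ℝ} (h0 : 0 < s)
    (h1 : s ≤ 1) : HIso n (scH s H) (scf s ψ) := by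
  unfold scH scf
  refine ⟨?_, ?_, ?_, ?_⟩
  · exact contDiff_const.mul (h.smooth.comp (contDiff_fst.prodMk (contDiff_snd.const_smul s⁻¹)))
  · obtain ⟨K, hK, hKB, hKs⟩ := h.supp
    refine ⟨(fun x => s • x) '' K, hK.image (continuous_const_smul s), ?_, fun t x hx => ?_⟩
    · rintro _ ⟨x, hx, rfl⟩
      exact smul_mem_Bl h0 h1 (hKB hx)
    · rw [hKs, mul_zero]
      intro hx'
      exact hx ⟨_, hx', by simp only [smul_inv_smul₀ h0.ne']⟩
  · intro x
    rw [h.zero, smul_inv_smul₀ h0.ne']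
  · intro t x
    have e := XH_aff (h.smooth_t t) 0 s h0.ne' (s • ψ t (s⁻¹ • x))
    simp only [sub_zero] at e
    rw [e, inv_smul_smul₀ h0.ne']
    exact (h.der t (s⁻¹ • x)).const_smul s

lemma finrank_E : Module.finrank ℝ (E n) = 2 * n := by
  simp [two_mul]

lemma cal_scH (H : ℝ → E n → ℝ) {s : ℝ} (h0 : 0 < s) :
    cal (scH s H) = s ^ (2 * n + 2) * cal H := by
  unfold cal scH
  have e : ∀ t : ℝ, ∫ x, s ^ 2 * H t (s⁻¹ • x) = s ^ (2 * n + 2) * ∫ x, H t x := by
    intro t
    rw [integral_const_mul, Measure.integral_comp_smul, finrank_E, smul_eq_mul, inv_pow, inv_inv,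
      abs_of_pos (pow_pos h0 _)]
    ring
  simp only [e]
  rw [intervalIntegral.integral_const_mul]

/-- every homeomorphism which is the time-one map of a smooth isotopy is given by its formula -/
lemma exists_homeo {H : ℝ → E n → ℝ} {ψ : ℝ → E n → E n} (h : HIso n H ψ) :
    ∃ u : E n ≃ₜ E n, IsHam n u ∧ ∀ x, u x = ψ 1 x := by
  obtain ⟨K, hK, hKB, hKs⟩ := h.supp
  have hA : Adm n H K := ⟨h.smooth, hK, hKB, hKs⟩
  refine ⟨hA.ev ⟨0, by simp⟩ ⟨1, by simp⟩, isHam_ev hA _ _, fun x => ?_⟩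
  exact hA.good.sol_eq (s := ⟨0, by simp⟩) (α := fun t => ψ t x)
    (fun t _ => (h.der t x).hasDerivWithinAt) (h.zero x) (by simp)

end Pool.Agent.W_68f289_t6
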