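import Pool.Agent.W_MP_68f289_gt.Ham

/-!
Lipschitz estimates and continuity of Hamiltonian flows.
-/

open Set Metric Topology MeasureTheory
open scoped NNReal ContDiff

namespace Pool.Agent.W_68f289_t6

open Pool.Agent.W_MP_68f289_gt

variable {n : ℕ}

/-- TASK Sym4. Hamiltonian flows are Lipschitz in the initial point, uniformly in `t ∈ [0, 1]`
(Gronwall: `dist_le_of_trajectories_ODE` with the Lipschitz constant of `Adm.good`; `h.supp` gives
`K` with `Adm n H K`). Also `X_{H t}` is Lipschitz and bounded for `t ∈ [0, 1]` with the same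
constant. -/
lemma exists_lip {H : ℝ → E n → ℝ} {ψ : ℝ → E n → E n} (h : HIso n H ψ) :
    ∃ C : ℝ≥0, ∀ t ∈ Icc (0 : ℝ) 1, LipschitzWith C (ψ t) ∧ LipschitzWith C (XH (H t)) ∧
      ∀ x, ‖XH (H t) x‖ ≤ C := by
  obtain ⟨K, hK, hKB, hsupp⟩ := h.supp
  have hA : Adm n H K := ⟨h.smooth, hK, hKB, hsupp⟩
  have hg := hA.good
  have hcont : ∀ x, ContinuousOn (fun s => ψ s x) (Icc 0 1) := fun x s _ =>
    (h.der s x).continuousAt.continuousWithinAt
  refine ⟨hA.C + Real.toNNReal (Real.exp hA.C), fun t ht => ⟨?_, ?_, fun x => ?_⟩⟩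
  · refine LipschitzWith.of_dist_le_mul fun x y => ?_
    have h1 := dist_le_of_trajectories_ODE_of_mem (v := fun t => XH (H t)) (s := fun _ => univ)
      (K := hA.C) (f := fun s => ψ s x) (g := fun s => ψ s y) (a := 0) (b := 1) (δ := dist x y)
      (fun s hs => (hg.lip s (Ico_subset_Icc_self hs)).lipschitzOnWith)
      (hcont x) (fun s _ => (h.der s x).hasDerivWithinAt) (fun _ _ => trivial)
      (hcont y) (fun s _ => (h.der s y).hasDerivWithinAt) (fun _ _ => trivial)
      (by rw [h.zero, h.zero]) t ht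
    refine h1.trans ?_
    rw [mul_comm]
    refine mul_le_mul_of_nonneg_right ?_ dist_nonneg
    rw [NNReal.coe_add, Real.coe_toNNReal _ (Real.exp_pos _).le]
    have h2 : Real.exp (hA.C * (t - 0)) ≤ Real.exp hA.C := by
      apply Real.exp_le_exp.2
      rw [sub_zero]
      exact mul_le_of_le_one_right hA.C.2 ht.2
    have h3 : (0 : ℝ) ≤ hA.C := hA.C.2
    linarith
  · exact (hg.lip t ht).weaken (le_add_of_nonneg_right zero_le)
  · refine (hg.bd t ht x).trans ?_
    rw [NNReal.coe_add]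
    exact le_add_of_nonneg_right (NNReal.coe_nonneg _)

/-- TASK Sym4. The flow is jointly continuous on `[0, 1] × ℝ^{2n}` (Lipschitz in `x` uniformly in
`t` by `exists_lip`, continuous in `t` since differentiable in `t`). -/
lemma cont_flow {H : ℝ → E n → ℝ} {ψ : ℝ → E n → E n} (h : HIso n H ψ) :
    ContinuousOn (Function.uncurry ψ) (Icc (0 : ℝ) 1 ×ˢ univ) := by
  obtain ⟨C, hC⟩ := exists_lip h
  rintro ⟨t, x⟩ ⟨ht, -⟩
  rw [Metric.continuousWithinAt_iff]
  intro ε hε
  have hcont : ContinuousAt (fun s => ψ s x) t := (h.der t x).continuousAt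
  obtain ⟨δ, hδ, hd⟩ := Metric.continuousAt_iff.1 hcont (ε / 2) (half_pos hε)
  have hC0 : (0 : ℝ) ≤ C := C.2
  refine ⟨min δ (ε / 2 / (C + 1)), lt_min hδ (by positivity), ?_⟩
  rintro ⟨s, y⟩ ⟨hs, -⟩ hsy
  rw [Prod.dist_eq, max_lt_iff] at hsy
  have h1 : dist s t < δ := hsy.1.trans_le (min_le_left _ _)
  have h2 : dist y x < ε / 2 / (C + 1) := hsy.2.trans_le (min_le_right _ _)
  have h3 : dist (ψ s y) (ψ s x) ≤ C * dist y x := (hC s hs).1.dist_le_mul y x
  have h4 : C * dist y x ≤ (C + 1) * dist y x :=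
    mul_le_mul_of_nonneg_right (by linarith) dist_nonneg
  have h5 : (C + 1) * dist y x < ε / 2 := by
    rw [lt_div_iff₀ (by positivity)] at h2
    linarith
  calc dist (ψ s y) (ψ t x) ≤ dist (ψ s y) (ψ s x) + dist (ψ s x) (ψ t x) := dist_triangle _ _ _
    _ < ε / 2 + ε / 2 := add_lt_add (by linarith) (hd h1)
    _ = ε := add_halves ε

/-- TASK Sym4. Points outside a compact set supporting `H` do not move (uniqueness: see
`Adm.IC_const`, `Good.unique`; `hameos_supp` in `Hameo.lean` has the argument for `t = 1`). -/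
lemma flow_off {H : ℝ → E n → ℝ} {ψ : ℝ → E n → E n} (h : HIso n H ψ) {K : Set (E n)}
    (hK : IsCompact K) (hKB : K ⊆ Bl n) (h0 : ∀ t : ℝ, ∀ x, x ∉ K → H t x = 0) {t : ℝ}
    (ht : t ∈ Icc (0 : ℝ) 1) {x : E n} (hx : x ∉ K) : ψ t x = x := by
  have hA : Adm n H K := ⟨h.smooth, hK, hKB, h0⟩
  exact hA.good.unique (α := fun t => ψ t x) (β := fun _ => x)
    (fun t _ => (h.der t x).hasDerivWithinAt) (hA.IC_const hx) (s := 0) (by simp) (h.zero x) ht

end Pool.Agent.W_68f289_t6
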