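import Pool.Agent.W_MP_68f289_gt.Defs

/-!
Second order Taylor estimate.
-/

open Set Metric Topology MeasureTheory
open scoped NNReal ContDiff

namespace Pool.Agent.W_68f289_t6

open Pool.Agent.W_MP_68f289_gt

variable {n : ℕ}

/-- TASK Sym3. Second order Taylor estimate, uniform in time in `[0, 1]`. Proof: the second
derivative `(t, x) ↦ fderiv ℝ (fun y => fderiv ℝ (F t) y) x` is continuous (see
`Adm.exists_good` in `W_MP_68f289_gt/Ham.lean` for the pattern with `ContDiff.fderiv`), it is bounded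
by `C` on the compact set `Icc 0 1 ×ˢ K` and zero when `x ∉ K` (F t vanishes on the open set `Kᶜ`).
So `fderiv ℝ (F t)` is `C`-Lipschitz for `t ∈ [0, 1]`
(`lipschitzWith_of_nnnorm_fderiv_le`), and by the mean value inequality on the segment
(`Convex.norm_image_sub_le_of_norm_hasFDerivWithin_le'` on the ball or segment of length `‖δ‖`)
`‖F t (z + δ) - F t z - fderiv ℝ (F t) z δ‖ ≤ C ‖δ‖ * ‖δ‖`. -/
lemma taylor {V : Type*} [NormedAddCommGroup V] [NormedSpace ℝ V] {F : ℝ → E n → V}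
    (hF : ContDiff ℝ ((⊤ : ℕ∞) : WithTop ℕ∞) (Function.uncurry F)) {K : Set (E n)}
    (hK : IsCompact K) (h0 : ∀ t x, x ∉ K → F t x = 0) :
    ∃ C : ℝ, 0 ≤ C ∧ ∀ t ∈ Icc (0 : ℝ) 1, ∀ z δ : E n,
      ‖F t (z + δ) - F t z - fderiv ℝ (F t) z δ‖ ≤ C * ‖δ‖ ^ 2 := by
  have hFt : ∀ t, ContDiff ℝ ((⊤ : ℕ∞) : WithTop ℕ∞) (F t) := fun t =>
    hF.comp (contDiff_const.prodMk contDiff_id)
  -- the first derivative
  have hD1 : ContDiff ℝ ((⊤ : ℕ∞) : WithTop ℕ∞)
      (fun p : ℝ × E n => fderiv ℝ (F p.1) p.2) := by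
    refine ContDiff.fderiv (f := fun (p : ℝ × E n) (y : E n) => F p.1 y) (g := fun p => p.2)
      (m := ((⊤ : ℕ∞) : WithTop ℕ∞)) (n := ((⊤ : ℕ∞) : WithTop ℕ∞)) ?_ contDiff_snd (by simp)
    exact hF.comp (contDiff_fst.fst.prodMk contDiff_snd)
  have hD2 : ContDiff ℝ ((⊤ : ℕ∞) : WithTop ℕ∞)
      (fun p : ℝ × E n => fderiv ℝ (fun y => fderiv ℝ (F p.1) y) p.2) := by
    refine ContDiff.fderiv (f := fun (p : ℝ × E n) (y : E n) => fderiv ℝ (F p.1) y)
      (g := fun p => p.2)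
      (m := ((⊤ : ℕ∞) : WithTop ℕ∞)) (n := ((⊤ : ℕ∞) : WithTop ℕ∞)) ?_ contDiff_snd (by simp)
    exact hD1.comp (contDiff_fst.fst.prodMk contDiff_snd)
  have hdt : ∀ t, Differentiable ℝ (fun y => fderiv ℝ (F t) y) := fun t =>
    (hD1.comp (contDiff_const.prodMk contDiff_id) : ContDiff ℝ ((⊤ : ℕ∞) : WithTop ℕ∞)
      (fun y => fderiv ℝ (F t) y)).differentiable (by simp)
  have hopen : IsOpen Kᶜ := hK.isClosed.isOpen_compl
  have hz1 : ∀ t x, x ∉ K → fderiv ℝ (F t) x = 0 := by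
    intro t x hx
    have h1 : F t =ᶠ[𝓝 x] fun _ => 0 := by
      filter_upwards [hopen.mem_nhds hx] with y hy
      exact h0 t y hy
    rw [h1.fderiv_eq, fderiv_const_apply]
  have hz2 : ∀ t x, x ∉ K → fderiv ℝ (fun y => fderiv ℝ (F t) y) x = 0 := by
    intro t x hx
    have h1 : (fun y => fderiv ℝ (F t) y) =ᶠ[𝓝 x] fun _ => 0 := by
      filter_upwards [hopen.mem_nhds hx] with y hy
      exact hz1 t y hy
    rw [h1.fderiv_eq, fderiv_const_apply]
  obtain ⟨C, hC⟩ := ((isCompact_Icc (a := (0 : ℝ)) (b := 1)).prod hK).exists_bound_of_continuousOn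
    (f := fun p : ℝ × E n => fderiv ℝ (fun y => fderiv ℝ (F p.1) y) p.2) hD2.continuous.continuousOn
  have hb : ∀ t ∈ Icc (0 : ℝ) 1, ∀ x, ‖fderiv ℝ (fun y => fderiv ℝ (F t) y) x‖ ≤ max C 0 := by
    intro t ht x
    by_cases hx : x ∈ K
    · exact (hC (t, x) ⟨ht, hx⟩).trans (le_max_left _ _)
    · rw [hz2 t x hx]
      exact le_trans (le_of_eq ContinuousLinearMap.opNorm_zero) (le_max_right _ _)
  refine ⟨max C 0, le_max_right _ _, fun t ht z δ => ?_⟩
  have hl : ∀ x, ‖fderiv ℝ (F t) x - fderiv ℝ (F t) z‖ ≤ max C 0 * ‖x - z‖ := by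
    intro x
    exact Convex.norm_image_sub_le_of_norm_fderiv_le (𝕜 := ℝ) (f := fun y => fderiv ℝ (F t) y)
      (s := univ) (fun y _ => hdt t y) (fun y _ => hb t ht y) convex_univ (mem_univ z) (mem_univ x)
  have h1 := Convex.norm_image_sub_le_of_norm_hasFDerivWithin_le' (𝕜 := ℝ) (f := F t)
    (f' := fun y => fderiv ℝ (F t) y) (φ := fderiv ℝ (F t) z) (C := max C 0 * ‖δ‖)
    (s := closedBall z ‖δ‖) (x := z) (y := z + δ)
    (fun y _ => ((hFt t).differentiable (by simp) y).hasFDerivAt.hasFDerivWithinAt)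
    (fun y hy => (hl y).trans (mul_le_mul_of_nonneg_left
      (by rw [← dist_eq_norm]; exact mem_closedBall.1 hy) (le_max_right _ _)))
    (convex_closedBall z ‖δ‖) (mem_closedBall_self (norm_nonneg _))
    (by rw [mem_closedBall, dist_eq_norm, add_sub_cancel_left])
  rw [add_sub_cancel_left] at h1
  calc _ ≤ max C 0 * ‖δ‖ * ‖δ‖ := h1
    _ = max C 0 * ‖δ‖ ^ 2 := by ring

end Pool.Agent.W_68f289_t6
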