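import Pool.Agent.W_68f289_t6.OmS
import Pool.Agent.W_68f289_t6.Tay
import Pool.Agent.W_68f289_t6.Lip

/-!
The derivative of the time-one map is symplectic where it exists.
-/

open Set Metric Topology MeasureTheory
open scoped NNReal ContDiff

namespace Pool.Agent.W_68f289_t6

open Pool.Agent.W_MP_68f289_gt

variable {n : ℕ}

/-- the estimate behind `Om_pres` -/
lemma Om_pres_aux {H : ℝ → E n → ℝ} {ψ : ℝ → E n → E n} (h : HIso n H ψ) (x v w : E n) :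
    ∃ M : ℝ, 0 ≤ M ∧ ∀ ε : ℝ,
      |Om (ψ 1 (x + ε • v) - ψ 1 x) (ψ 1 (x + ε • w) - ψ 1 x) - ε ^ 2 * Om v w| ≤ M * |ε| ^ 3 := by
  obtain ⟨K, hK, hKB, h0⟩ := h.supp
  have hAd : Adm n H K := ⟨h.smooth, hK, hKB, h0⟩
  obtain ⟨CT, hCT0, hCT⟩ := taylor (F := fun t y => XH (H t) y) hAd.XH_smooth hK
    (fun t y hy => hAd.XH_off t hy)
  obtain ⟨CL, hCL⟩ := exists_lip h
  set V : ℝ := CL * ‖v‖ with hV
  set W : ℝ := CL * ‖w‖ with hW
  have hV0 : 0 ≤ V := by positivity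
  have hW0 : 0 ≤ W := by positivity
  refine ⟨2 * n * CT * (V ^ 2 * W + V * W ^ 2), by positivity, fun ε => ?_⟩
  set a : ℝ → E n := fun τ => ψ τ (x + ε • v) - ψ τ x with ha
  set b : ℝ → E n := fun τ => ψ τ (x + ε • w) - ψ τ x with hb
  have hsize : ∀ τ ∈ Icc (0 : ℝ) 1, ∀ u : E n, ‖ψ τ (x + ε • u) - ψ τ x‖ ≤ |ε| * (CL * ‖u‖) := by
    intro τ hτ u
    have h1 := (hCL τ hτ).1.dist_le_mul (x + ε • u) x
    rw [dist_eq_norm, dist_eq_norm, add_sub_cancel_left, norm_smul, Real.norm_eq_abs] at h1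
    calc ‖ψ τ (x + ε • u) - ψ τ x‖ ≤ CL * (|ε| * ‖u‖) := h1
      _ = |ε| * (CL * ‖u‖) := by ring
  have hda : ∀ τ, HasDerivAt a (XH (H τ) (ψ τ (x + ε • v)) - XH (H τ) (ψ τ x)) τ := fun τ =>
    (h.der τ (x + ε • v)).sub (h.der τ x)
  have hdb : ∀ τ, HasDerivAt b (XH (H τ) (ψ τ (x + ε • w)) - XH (H τ) (ψ τ x)) τ := fun τ =>
    (h.der τ (x + ε • w)).sub (h.der τ x)
  have hF : ∀ τ, HasDerivAt (fun s => Om (a s) (b s))
      (Om (XH (H τ) (ψ τ (x + ε • v)) - XH (H τ) (ψ τ x)) (b τ) +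
        Om (a τ) (XH (H τ) (ψ τ (x + ε • w)) - XH (H τ) (ψ τ x))) τ := fun τ =>
    Om_deriv (hda τ) (hdb τ)
  have hbound : ∀ τ ∈ Icc (0 : ℝ) 1,
      ‖Om (XH (H τ) (ψ τ (x + ε • v)) - XH (H τ) (ψ τ x)) (b τ) +
        Om (a τ) (XH (H τ) (ψ τ (x + ε • w)) - XH (H τ) (ψ τ x))‖ ≤
      2 * n * CT * (V ^ 2 * W + V * W ^ 2) * |ε| ^ 3 := by
    intro τ hτ
    have hat : ‖a τ‖ ≤ |ε| * V := hsize τ hτ v
    have hbt : ‖b τ‖ ≤ |ε| * W := hsize τ hτ w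
    set D := fderiv ℝ (XH (H τ)) (ψ τ x) with hD
    set A1 := XH (H τ) (ψ τ (x + ε • v)) - XH (H τ) (ψ τ x) - D (a τ) with hA1
    set B1 := XH (H τ) (ψ τ (x + ε • w)) - XH (H τ) (ψ τ x) - D (b τ) with hB1
    have hA1b : ‖A1‖ ≤ CT * ‖a τ‖ ^ 2 := by
      have h1 := hCT τ hτ (ψ τ x) (a τ)
      have h2 : ψ τ x + a τ = ψ τ (x + ε • v) := by rw [ha]; simp
      rw [h2] at h1
      exact h1
    have hB1b : ‖B1‖ ≤ CT * ‖b τ‖ ^ 2 := by
      have h1 := hCT τ hτ (ψ τ x) (b τ)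
      have h2 : ψ τ x + b τ = ψ τ (x + ε • w) := by rw [hb]; simp
      rw [h2] at h1
      exact h1
    have hsym := Om_symm (hAd.smooth_t τ) (ψ τ x) (a τ) (b τ)
    rw [← hD] at hsym
    have e : Om (XH (H τ) (ψ τ (x + ε • v)) - XH (H τ) (ψ τ x)) (b τ) +
        Om (a τ) (XH (H τ) (ψ τ (x + ε • w)) - XH (H τ) (ψ τ x)) = Om A1 (b τ) + Om (a τ) B1 := by
      rw [hA1, hB1, Om_sub_left _ (D (a τ)), Om_sub_right _ _ (D (b τ))]
      linarith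
    rw [e, Real.norm_eq_abs]
    have h1 := Om_bound A1 (b τ)
    have h2 := Om_bound (a τ) B1
    have h3 : ‖A1‖ * ‖b τ‖ ≤ (CT * (|ε| * V) ^ 2) * (|ε| * W) := by
      have : ‖A1‖ ≤ CT * (|ε| * V) ^ 2 := hA1b.trans (by gcongr)
      exact mul_le_mul this hbt (norm_nonneg _) (by positivity)
    have h4 : ‖a τ‖ * ‖B1‖ ≤ (|ε| * V) * (CT * (|ε| * W) ^ 2) := by
      have : ‖B1‖ ≤ CT * (|ε| * W) ^ 2 := hB1b.trans (by gcongr)
      exact mul_le_mul hat this (norm_nonneg _) (by positivity)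
    calc |Om A1 (b τ) + Om (a τ) B1| ≤ |Om A1 (b τ)| + |Om (a τ) B1| := abs_add_le _ _
      _ ≤ 2 * n * (‖A1‖ * ‖b τ‖) + 2 * n * (‖a τ‖ * ‖B1‖) := add_le_add h1 h2
      _ ≤ 2 * n * ((CT * (|ε| * V) ^ 2) * (|ε| * W)) +
          2 * n * ((|ε| * V) * (CT * (|ε| * W) ^ 2)) := by gcongr
      _ = 2 * n * CT * (V ^ 2 * W + V * W ^ 2) * |ε| ^ 3 := by ring
  have hmv := norm_image_sub_le_of_norm_deriv_le_segment_01' (f := fun s => Om (a s) (b s))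
    (f' := fun τ => Om (XH (H τ) (ψ τ (x + ε • v)) - XH (H τ) (ψ τ x)) (b τ) +
        Om (a τ) (XH (H τ) (ψ τ (x + ε • w)) - XH (H τ) (ψ τ x)))
    (fun τ _ => (hF τ).hasDerivWithinAt) (fun τ hτ => hbound τ ⟨hτ.1, hτ.2.le⟩)
  have e0 : Om (a 0) (b 0) = ε ^ 2 * Om v w := by
    rw [ha, hb]
    simp only [h.zero, add_sub_cancel_left]
    rw [Om_smul_left, Om_smul_right]
    ring
  rw [Real.norm_eq_abs, e0] at hmv
  exact hmv

/-- the passage to the limit, in an abstract normed space -/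
lemma lim_aux {V : Type*} [NormedAddCommGroup V] [NormedSpace ℝ V] (B : V → V → ℝ)
    (hB : Continuous fun p : V × V => B p.1 p.2) (hl : ∀ (r : ℝ) (a b : V), B (r • a) b = r * B a b)
    (hr : ∀ (r : ℝ) (a b : V), B a (r • b) = r * B a b) (f : V → V) (A : V →L[ℝ] V) (x : V)
    (hA : HasFDerivAt f A x) (v w : V) (M : ℝ)
    (hM : ∀ ε : ℝ, |B (f (x + ε • v) - f x) (f (x + ε • w) - f x) - ε ^ 2 * B v w| ≤
      M * |ε| ^ 3) : B (A v) (A w) = B v w := by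
  have hv := (hA.hasLineDerivAt v).tendsto_slope_zero
  have hw := (hA.hasLineDerivAt w).tendsto_slope_zero
  have h1 : Filter.Tendsto (fun t : ℝ => B (t⁻¹ • (f (x + t • v) - f x))
      (t⁻¹ • (f (x + t • w) - f x))) (𝓝[≠] 0) (𝓝 (B (A v) (A w))) :=
    (hB.tendsto (A v, A w)).comp (hv.prodMk_nhds hw)
  have h2 : Filter.Tendsto (fun t : ℝ => B (t⁻¹ • (f (x + t • v) - f x))
      (t⁻¹ • (f (x + t • w) - f x))) (𝓝[≠] 0) (𝓝 (B v w)) := by
    rw [tendsto_iff_norm_sub_tendsto_zero]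
    have h3 : Filter.Tendsto (fun t : ℝ => M * |t|) (𝓝[≠] 0) (𝓝 0) := by
      have : Continuous (fun t : ℝ => M * |t|) := by fun_prop
      have h4 := this.tendsto 0
      simp only [abs_zero, mul_zero] at h4
      exact h4.mono_left nhdsWithin_le_nhds
    refine squeeze_zero' (Filter.Eventually.of_forall fun t => norm_nonneg _) ?_ h3
    filter_upwards [self_mem_nhdsWithin] with t ht
    have ht0 : t ≠ 0 := ht
    rw [hl, hr, Real.norm_eq_abs]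
    have e : t⁻¹ * (t⁻¹ * B (f (x + t • v) - f x) (f (x + t • w) - f x)) - B v w =
        (t ^ 2)⁻¹ * (B (f (x + t • v) - f x) (f (x + t • w) - f x) - t ^ 2 * B v w) := by
      field_simp
    rw [e, abs_mul, abs_inv, abs_of_nonneg (sq_nonneg t)]
    have ht2 : 0 < t ^ 2 := by positivity
    calc (t ^ 2)⁻¹ * |B (f (x + t • v) - f x) (f (x + t • w) - f x) - t ^ 2 * B v w|
        ≤ (t ^ 2)⁻¹ * (M * |t| ^ 3) := by
          gcongr
          exact hM t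
      _ = M * |t| := by
          have h5 : |t| ≠ 0 := abs_ne_zero.mpr ht0
          have h6 : t ^ 2 = |t| ^ 2 := (sq_abs t).symm
          rw [h6]
          field_simp
  exact tendsto_nhds_unique h1 h2

/-- TASK Liou1. Where the time-one map `ψ 1` is differentiable, its derivative preserves the
symplectic form. Proof: fix `v, w`, and for `ε ≠ 0` put `a τ = ψ τ (x + ε v) - ψ τ x`,
`b τ = ψ τ (x + ε w) - ψ τ x`, `z τ = ψ τ x`, `X = XH (H τ)`. By `exists_lip`, `‖a τ‖ ≤ C |ε| ‖v‖`,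
`‖b τ‖ ≤ C |ε| ‖w‖` on `[0, 1]`. The function `F τ = Om (a τ) (b τ)` has the derivative
(`Om_deriv`) `Om (X (z + a) - X z) b + Om a (X (z + b) - X z)`. By `taylor` applied to
`(t, x) ↦ XH (H t) x` (smooth by `Adm.XH_smooth`, zero off `K` by `Adm.XH_off`)
`X (z + a) - X z = DX a + O(‖a‖²)` etc., the linear terms cancel by `Om_symm`, and by `Om_bound`
`|F' τ| ≤ M |ε|³` with `M` independent of `ε` and `τ`. So `|F 1 - F 0| ≤ M |ε|³`, where
`F 0 = ε² Om v w`. Divide by `ε²` and let `ε → 0`: `(ψ 1 (x + ε v) - ψ 1 x)/ε → A v` (`HasFDerivAt`,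
e.g. `HasFDerivAt.hasLineDerivAt` / `HasDerivAt` of `ε ↦ ψ 1 (x + ε v)` at 0) and `Om_cont`. -/
lemma Om_pres {H : ℝ → E n → ℝ} {ψ : ℝ → E n → E n} (h : HIso n H ψ) {x : E n}
    {A : E n →L[ℝ] E n} (hA : HasFDerivAt (ψ 1) A x) (v w : E n) :
    Om (A v) (A w) = Om v w := by
  obtain ⟨M, hM0, hM⟩ := Om_pres_aux h x v w
  exact lim_aux Om Om_cont Om_smul_left Om_smul_right (ψ 1) A x hA v w M hM

end Pool.Agent.W_68f289_t6
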