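import Pool.Agent.W_MP_68f289_gt.Ham

/-!
Euler's identity, integrated.
-/

open Set Metric Topology MeasureTheory
open scoped NNReal ContDiff

namespace Pool.Agent.W_68f289_t6

open Pool.Agent.W_MP_68f289_gt

variable {n : ℕ}

lemma Euler_part {h : E n → ℝ} (hh : ContDiff ℝ ((⊤ : ℕ∞) : WithTop ℕ∞) h)
    (hc : HasCompactSupport h) (c : E n →L[ℝ] ℝ) (v : E n) :
    Integrable (fun x : E n => c x * fderiv ℝ h x v) ∧
      ∫ x, c x * fderiv ℝ h x v = -(c v * ∫ x, h x) := by
  have hd : Differentiable ℝ h := hh.differentiable (by simp)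
  have hf : Continuous fun x => fderiv ℝ h x v :=
    (hh.continuous_fderiv (by simp)).clm_apply continuous_const
  have hfc : HasCompactSupport fun x => fderiv ℝ h x v := hc.fderiv_apply ℝ v
  have i1 : Integrable (fun x : E n => c x * fderiv ℝ h x v) :=
    (c.continuous.mul hf).integrable_of_hasCompactSupport hfc.mul_left
  have i2 : Integrable (fun x : E n => c x * h x) :=
    (c.continuous.mul hh.continuous).integrable_of_hasCompactSupport hc.mul_left
  have e1 : ∀ x, fderiv ℝ (fun y => c y) x v = c v := fun x => by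
    rw [ContinuousLinearMap.fderiv]
  have i3 : Integrable (fun x : E n => fderiv ℝ (fun y => c y) x v * h x) := by
    simp only [e1]
    exact (continuous_const.mul hh.continuous).integrable_of_hasCompactSupport hc.mul_left
  have : (volume : Measure (E n)).IsAddHaarMeasure :=
    Measure.prod.instIsAddHaarMeasure (volume : Measure (Fin n → ℝ)) (volume : Measure (Fin n → ℝ))
  refine ⟨i1, ?_⟩
  rw [integral_mul_fderiv_eq_neg_fderiv_mul_of_integrable i3 i1 i2
    (fun x _ => c.differentiableAt) (fun x _ => hd x)]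
  simp only [e1]
  rw [integral_const_mul]

/-- TASK Act4. Euler's identity integrated: for a smooth function with compact support,
`∫ dh_x(x) dx = - 2n ∫ h`. Proof: `fderiv ℝ h x x = ∑ i, x.1 i * fderiv ℝ h x (uv i, 0) +
x.2 i * fderiv ℝ h x (0, uv i)` and for each of the `2n` coordinates integration by parts
(`integral_mul_fderiv_eq_neg_fderiv_mul_of_integrable` in
`Mathlib.Analysis.Calculus.LineDeriv.IntegrationByParts`) gives `- ∫ h`. -/
lemma euler {h : E n → ℝ} (hh : ContDiff ℝ ((⊤ : ℕ∞) : WithTop ℕ∞) h) {K : Set (E n)}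
    (hK : IsCompact K) (h0 : ∀ x, x ∉ K → h x = 0) :
    ∫ x, fderiv ℝ h x x = -(2 * n) * ∫ x, h x := by
  have hc : HasCompactSupport h := HasCompactSupport.intro hK h0
  let c : Fin n → E n →L[ℝ] ℝ := fun i =>
    (ContinuousLinearMap.proj i).comp (ContinuousLinearMap.fst ℝ (Fin n → ℝ) (Fin n → ℝ))
  let d : Fin n → E n →L[ℝ] ℝ := fun i =>
    (ContinuousLinearMap.proj i).comp (ContinuousLinearMap.snd ℝ (Fin n → ℝ) (Fin n → ℝ))
  have hcx : ∀ i (x : E n), c i x = x.1 i := fun i x => rfl
  have hdx : ∀ i (x : E n), d i x = x.2 i := fun i x => rfl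
  have hx : ∀ x : E n, x = (∑ i, x.1 i • ((uv i, 0) : E n)) + ∑ i, x.2 i • ((0, uv i) : E n) := by
    intro x
    have e1 : ∀ y : Fin n → ℝ, ∑ i, y i • uv i = y := by
      intro y
      funext j
      rw [Finset.sum_apply, Finset.sum_eq_single j]
      · simp [uv]
      · intro i _ hij
        simp [uv, Ne.symm hij]
      · intro hj
        exact absurd (Finset.mem_univ j) hj
    refine Prod.ext ?_ ?_
    · rw [Prod.fst_add, Prod.fst_sum, Prod.fst_sum]
      simp only [Prod.smul_fst, smul_zero, Finset.sum_const_zero, add_zero, e1]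
    · rw [Prod.snd_add, Prod.snd_sum, Prod.snd_sum]
      simp only [Prod.smul_snd, smul_zero, Finset.sum_const_zero, zero_add, e1]
  have hfx : ∀ x : E n, fderiv ℝ h x x =
      (∑ i, c i x * fderiv ℝ h x (uv i, 0)) + ∑ i, d i x * fderiv ℝ h x (0, uv i) := by
    intro x
    conv_lhs => rw [show fderiv ℝ h x x = fderiv ℝ h x ((∑ i, x.1 i • ((uv i, 0) : E n)) +
      ∑ i, x.2 i • ((0, uv i) : E n)) by rw [← hx x]]
    rw [map_add, map_sum, map_sum]
    simp only [map_smul, smul_eq_mul, hcx, hdx]
  simp only [hfx]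
  rw [integral_add, integral_finsetSum, integral_finsetSum]
  · have e1 : ∀ i : Fin n, ∫ x, c i x * fderiv ℝ h x (uv i, 0) = -∫ x, h x := by
      intro i
      rw [(Euler_part hh hc (c i) (uv i, 0)).2, hcx]
      simp [uv]
    have e2 : ∀ i : Fin n, ∫ x, d i x * fderiv ℝ h x (0, uv i) = -∫ x, h x := by
      intro i
      rw [(Euler_part hh hc (d i) (0, uv i)).2, hdx]
      simp [uv]
    simp only [e1, e2, Finset.sum_const, Finset.card_univ, Fintype.card_fin, nsmul_eq_mul]
    ring
  · exact fun i _ => (Euler_part hh hc (d i) (0, uv i)).1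
  · exact fun i _ => (Euler_part hh hc (c i) (uv i, 0)).1
  · exact integrable_finsetSum _ fun i _ => (Euler_part hh hc (c i) (uv i, 0)).1
  · exact integrable_finsetSum _ fun i _ => (Euler_part hh hc (d i) (0, uv i)).1

end Pool.Agent.W_68f289_t6
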