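import Pool.Agent.W_68f289_t6.ActD
import Pool.Agent.W_68f289_t6.Euler

/-!
The integral of the action density.
-/

open Set Metric Topology MeasureTheory
open scoped NNReal ContDiff

namespace Pool.Agent.W_68f289_t6

open Pool.Agent.W_MP_68f289_gt

variable {n : ℕ}

/-- TASK Act5. `∫ act H t = (n + 1) ∫ H t`: `Om x (XH h x) = - Om (XH h x) x = - fderiv ℝ h x x`
(`Om_anti`, `Om_XH`), then `euler`. -/
lemma int_act {H : ℝ → E n → ℝ} {ψ : ℝ → E n → E n} (h : HIso n H ψ) (t : ℝ) :
    ∫ x, act H t x = (n + 1) * ∫ x, H t x := by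
  obtain ⟨K, hK, -, h0⟩ := h.supp
  have hs : ContDiff ℝ ((⊤ : ℕ∞) : WithTop ℕ∞) (H t) := by
    have h1 : H t = Function.uncurry H ∘ fun x => (t, x) := rfl
    rw [h1]
    exact h.smooth.comp (contDiff_const.prodMk contDiff_id)
  have hc : HasCompactSupport (H t) := HasCompactSupport.intro hK (h0 t)
  have hi : Integrable (H t) := hs.continuous.integrable_of_hasCompactSupport hc
  have hcf : Continuous fun x => fderiv ℝ (H t) x x :=
    (hs.continuous_fderiv (by simp)).clm_apply continuous_id
  have hsf : HasCompactSupport fun x => fderiv ℝ (H t) x x := by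
    refine (hc.fderiv ℝ).mono fun x hx => ?_
    rw [Function.mem_support] at hx ⊢
    intro h1
    apply hx
    rw [h1]
    rfl
  have hif : Integrable fun x => fderiv ℝ (H t) x x :=
    hcf.integrable_of_hasCompactSupport hsf
  have h1 : ∀ x, act H t x = H t x - 1 / 2 * fderiv ℝ (H t) x x := by
    intro x
    unfold act
    rw [Om_anti, ← Om_XH]
    ring
  simp_rw [h1]
  rw [integral_sub hi (hif.const_mul _), integral_const_mul, euler hs hK (h0 t)]
  ring

end Pool.Agent.W_68f289_t6
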