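import Pool.Agent.W_68f289_t6.LiA
import Pool.Agent.W_MP_68f289_gt.Grp

/-!
Liouville's theorem.
-/

open Set Metric Topology MeasureTheory
open scoped NNReal ContDiff

namespace Pool.Agent.W_68f289_t6

open Pool.Agent.W_MP_68f289_gt

variable {n : ℕ}

lemma Liou_pre_le {u : E n ≃ₜ E n} (hu : IsHam n u) {s : Set (E n)} (hs : MeasurableSet s) :
    volume (u ⁻¹' s) ≤ volume s := by
  have h := lint_le hu (s.indicator 1)
  have h1 : (fun x => s.indicator (1 : E n → ENNReal) (u x)) =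
      (u ⁻¹' s).indicator (1 : E n → ENNReal) := by
    funext x
    by_cases hx : u x ∈ s
    · rw [indicator_of_mem hx, indicator_of_mem (show x ∈ u ⁻¹' s from hx)]; rfl
    · rw [indicator_of_notMem hx, indicator_of_notMem (show x ∉ u ⁻¹' s from hx)]
  rw [h1, lintegral_indicator_one hs,
    lintegral_indicator_one (u.continuous.measurable hs)] at h
  exact h

/-- TASK Liou4. Liouville's theorem: apply `lint_le` to `u` and to `u⁻¹` (`isHam_inv`), with `g` the
indicator function of a measurable set: `volume (u ⁻¹' s) ≤ volume s` and conversely. -/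
lemma isHam_mp {u : E n ≃ₜ E n} (hu : IsHam n u) : MeasurePreserving u volume volume := by
  refine ⟨u.continuous.measurable, Measure.ext fun s hs => ?_⟩
  rw [Measure.map_apply u.continuous.measurable hs]
  refine le_antisymm (Liou_pre_le hu hs) ?_
  have h := Liou_pre_le (isHam_inv hu) (s := u ⁻¹' s) (u.continuous.measurable hs)
  have h1 : (u⁻¹ : E n ≃ₜ E n) ⁻¹' (u ⁻¹' s) = s := by
    ext x
    simp only [mem_preimage, Homeomorph.inv_apply]
    rw [u.apply_symm_apply]
  rwa [h1] at h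

/-- TASK Liou4. The maps `ψ t`, `t ∈ [0, 1]`, preserve the integral: `ψ t` is the homeomorphism
`hA.ev 0 t` (with `hA : Adm n H K`, see `Hameo_le` in `Hameo.lean` for the identification), which is
`IsHam` by `isHam_ev`; then `isHam_mp` and `MeasurePreserving.integral_comp`. -/
lemma int_flow {H : ℝ → E n → ℝ} {ψ : ℝ → E n → E n} (h : HIso n H ψ) {t : ℝ}
    (ht : t ∈ Icc (0 : ℝ) 1) (g : E n → ℝ) : ∫ x, g (ψ t x) = ∫ x, g x := by
  obtain ⟨hH, ⟨K, hK, hKB, hsupp⟩, hψ0, hψ⟩ := h
  have hA : Adm n H K := ⟨hH, hK, hKB, hsupp⟩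
  have hev : ∀ x, hA.ev ⟨0, by simp⟩ ⟨t, ht⟩ x = ψ t x := fun x =>
    hA.good.sol_eq (s := ⟨0, by simp⟩) (α := fun t => ψ t x)
      (fun t _ => (hψ t x).hasDerivWithinAt) (hψ0 x) ht
  have hm := isHam_mp (isHam_ev hA ⟨0, by simp⟩ ⟨t, ht⟩)
  have h2 := hm.integral_comp (hA.ev ⟨0, by simp⟩ ⟨t, ht⟩).measurableEmbedding g
  simpa only [hev] using h2

end Pool.Agent.W_68f289_t6
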