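import Pool.Agent.W_68f289_t6.Cal
import Pool.Agent.W_68f289_t6.ActI
import Pool.Agent.W_68f289_t6.Lip
import Pool.Agent.W_68f289_t6.Liou

/-!
The integral of the action.
-/

open Set Metric Topology MeasureTheory
open scoped NNReal ContDiff

namespace Pool.Agent.W_68f289_t6

open Pool.Agent.W_MP_68f289_gt

variable {n : ℕ}

/-- the integrand of the action along the flow is integrable -/
lemma act_flow_integrable {H : ℝ → E n → ℝ} {ψ : ℝ → E n → E n} (h : HIso n H ψ) :
    Integrable (Function.uncurry fun (t : ℝ) (x : E n) => act H t (ψ t x))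
      ((volume.restrict (Ioc (0 : ℝ) 1)).prod (volume : Measure (E n))) := by
  obtain ⟨K, hK, hKB, h0⟩ := h.supp
  have hc : ContinuousOn (Function.uncurry fun (t : ℝ) (x : E n) => act H t (ψ t x))
      (Icc (0 : ℝ) 1 ×ˢ univ) := by
    have h1 := act_cont h
    have h2 : ContinuousOn (fun p : ℝ × E n => (p.1, Function.uncurry ψ p))
        (Icc (0 : ℝ) 1 ×ˢ univ) := continuousOn_fst.prodMk (cont_flow h)
    exact h1.comp_continuousOn h2
  have h1 : IntegrableOn (Function.uncurry fun (t : ℝ) (x : E n) => act H t (ψ t x))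
      (Icc (0 : ℝ) 1 ×ˢ K) ((volume : Measure ℝ).prod (volume : Measure (E n))) :=
    (hc.mono (prod_mono_right (subset_univ K))).integrableOn_compact (isCompact_Icc.prod hK)
  have h2 : IntegrableOn (Function.uncurry fun (t : ℝ) (x : E n) => act H t (ψ t x))
      (Icc (0 : ℝ) 1 ×ˢ univ) ((volume : Measure ℝ).prod (volume : Measure (E n))) := by
    refine h1.of_forall_sdiff_eq_zero (measurableSet_Icc.prod MeasurableSet.univ) ?_
    rintro ⟨t, x⟩ ⟨⟨ht, -⟩, hx⟩
    have hx' : x ∉ K := fun hxK => hx ⟨ht, hxK⟩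
    change act H t (ψ t x) = 0
    rw [flow_off h hK hKB h0 ht hx']
    exact act_off h hK hKB h0 t hx'
  have h3 := h2.mono_set (prod_mono_left (t := (univ : Set (E n))) (Ioc_subset_Icc_self (a := (0 : ℝ)) (b := 1)))
  have h4 : (volume.restrict (Ioc (0 : ℝ) 1)).prod (volume : Measure (E n)) =
      ((volume : Measure ℝ).prod (volume : Measure (E n))).restrict (Ioc (0 : ℝ) 1 ×ˢ univ) := by
    rw [← Measure.prod_restrict, Measure.restrict_univ]
  rw [h4]
  exact h3

/-- TASK Act6. Fubini and Liouville: `∫ Act H ψ = (n + 1) * cal H`. Proof: the function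
`(t, x) ↦ act H t (ψ t x)` is continuous on `[0, 1] × ℝ^{2n}` (`cont_flow`, `act_cont`) and zero for
`x ∉ K` (`flow_off`, `act_off`), hence integrable on `Ioc 0 1 ×ˢ univ`; swap the integrals
(`intervalIntegral.integral_of_le`, `MeasureTheory.integral_integral_swap`), and use
`int_flow`, `int_act`. -/
lemma int_Act {H : ℝ → E n → ℝ} {ψ : ℝ → E n → E n} (h : HIso n H ψ) :
    ∫ x, Act H ψ x = (n + 1) * cal H := by
  have hsw := integral_integral_swap (act_flow_integrable h)
  have h1 : ∫ x, Act H ψ x = ∫ x, ∫ t in Ioc (0 : ℝ) 1, act H t (ψ t x) := by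
    refine integral_congr_ae (Filter.Eventually.of_forall fun x => ?_)
    exact intervalIntegral.integral_of_le zero_le_one
  rw [h1, ← hsw, cal, intervalIntegral.integral_of_le zero_le_one, ← integral_const_mul]
  refine setIntegral_congr_fun measurableSet_Ioc fun t ht => ?_
  change ∫ x, act H t (ψ t x) = (n + 1) * ∫ x, H t x
  rw [← int_act h t]
  exact int_flow h (Ioc_subset_Icc_self ht) (act H t)

end Pool.Agent.W_68f289_t6
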