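import Pool.Agent.W_68f289_t6.ActZ
import Pool.Agent.W_68f289_t6.ActF

/-!
The Calabi invariant of a smooth Hamiltonian loop vanishes.
-/

open Set Metric Topology MeasureTheory
open scoped NNReal ContDiff

namespace Pool.Agent.W_68f289_t6

open Pool.Agent.W_MP_68f289_gt

variable {n : ℕ}

/-- The Calabi invariant of a loop is zero. -/
theorem cal_loop (hn : 1 ≤ n) {H : ℝ → E n → ℝ} {ψ : ℝ → E n → E n} (h : HIso n H ψ)
    (hl : ∀ x, ψ 1 x = x) : cal H = 0 := by
  have h1 := int_Act h
  simp only [Act_zero hn h hl, integral_zero] at h1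
  have h2 : (n + 1 : ℝ) ≠ 0 := by positivity
  rcases mul_eq_zero.1 h1.symm with h3 | h3
  · exact absurd h3 h2
  · exact h3

/-- The Calabi invariant depends only on the time-one map. -/
theorem cal_unique (hn : 1 ≤ n) {H H' : ℝ → E n → ℝ} {ψ ψ' : ℝ → E n → E n} (h : HIso n H ψ)
    (h' : HIso n H' ψ') (e : ∀ x, ψ 1 x = ψ' 1 x) : cal H = cal H' := by
  obtain ⟨u, _, hu⟩ := exists_homeo h'
  have h1 := rev_iso h' hu
  have h2 := conc_iso h h1
  have h3 : ∀ x, concf ψ (revf u ψ') 1 x = x := by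
    intro x
    rw [concf_one, revf_one h', e, ← hu]
    exact u.symm_apply_apply x
  have h4 := cal_loop hn h2 h3
  rw [cal_conc h h1, cal_rev] at h4
  linarith

end Pool.Agent.W_68f289_t6
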