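import Pool.Agent.W_68f289_t6.Om

/-!
The action.
-/

open Set Metric Topology MeasureTheory
open scoped NNReal ContDiff

namespace Pool.Agent.W_68f289_t6

open Pool.Agent.W_MP_68f289_gt

variable {n : ℕ}

/-- the integrand of the action: `H t x + (1/2) Om (x, X_{H t}(x))` -/
noncomputable def act (H : ℝ → E n → ℝ) (t : ℝ) (x : E n) : ℝ :=
  H t x + 1 / 2 * Om x (XH (H t) x)

/-- the action of the trajectory which starts at `x` -/
noncomputable def Act (H : ℝ → E n → ℝ) (ψ : ℝ → E n → E n) (x : E n) : ℝ :=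
  ∫ t in (0 : ℝ)..1, act H t (ψ t x)

/-- TASK Act1. `act H` is continuous in `(t, x)` (`Adm.XH_smooth`, `Om_cont`). -/
lemma act_cont {H : ℝ → E n → ℝ} {ψ : ℝ → E n → E n} (h : HIso n H ψ) :
    Continuous (Function.uncurry (act H)) := by
  obtain ⟨K, hK, hKB, h0⟩ := h.supp
  have hA : Adm n H K := ⟨h.smooth, hK, hKB, h0⟩
  have h1 : Continuous (fun p : ℝ × E n => XH (H p.1) p.2) := hA.XH_smooth.continuous
  have h2 : Continuous (fun p : ℝ × E n => Om p.2 (XH (H p.1) p.2)) :=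
    Om_cont.comp (continuous_snd.prodMk h1)
  have h3 : Continuous (fun p : ℝ × E n => H p.1 p.2) := h.smooth.continuous
  exact h3.add (continuous_const.mul h2)

/-- TASK Act1. `act H t x = 0` for `x` outside a compact set supporting `H` (`Adm.XH_off`). -/
lemma act_off {H : ℝ → E n → ℝ} {ψ : ℝ → E n → E n} (h : HIso n H ψ) {K : Set (E n)}
    (hK : IsCompact K) (hKB : K ⊆ Bl n) (h0 : ∀ t : ℝ, ∀ x, x ∉ K → H t x = 0) (t : ℝ) {x : E n}
    (hx : x ∉ K) : act H t x = 0 := by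
  have hA : Adm n H K := ⟨h.smooth, hK, hKB, h0⟩
  unfold act
  rw [hA.XH_off t hx, h0 t x hx]
  simp [Om]

end Pool.Agent.W_68f289_t6
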