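import Pool.Agent.W_68f289_t6.ActD
import Pool.Agent.W_68f289_t6.Tay
import Pool.Agent.W_68f289_t6.Lip

/-!
The action of a loop has quadratic increments.
-/

open Set Metric Topology MeasureTheory
open scoped NNReal ContDiff

namespace Pool.Agent.W_68f289_t6

open Pool.Agent.W_MP_68f289_gt

variable {n : ℕ}

/-- TASK Act2. The action of a loop has quadratic increments. Proof: put `z t = ψ t x`,
`w t = ψ t y`, `δ = w - z`, `X = XH (H t)`. Algebra (bilinearity, `Om_anti`):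
`Om w (X w) - Om z (X z) = [Om (X z) δ + Om z (X w - X z)] - 2 Om (X z) δ + Om δ (X w - X z)`,
the bracket is the derivative of `t ↦ Om (z t) (δ t)` (`Om_deriv`), and
`fderiv ℝ (H t) z δ = Om (X z) δ` (`Om_XH`). Hence
`act t w - act t z = [H t (z + δ) - H t z - fderiv ℝ (H t) z δ] + (1/2) (Om z δ)' +
(1/2) Om δ (X w - X z)`. Integrate over `[0, 1]`: the middle term gives
`(1/2)(Om (z 1) (δ 1) - Om (z 0) (δ 0)) = 0` because `ψ 1 = id = ψ 0`
(`intervalIntegral.integral_eq_sub_of_hasDerivAt`); the first is `≤ C ‖δ‖²` by `taylor`, the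
last `≤ C ‖δ‖²` by `Om_bound` and `exists_lip`, and `‖δ t‖ ≤ C ‖x - y‖` by `exists_lip`. -/
lemma Act_quad {H : ℝ → E n → ℝ} {ψ : ℝ → E n → E n} (h : HIso n H ψ)
    (hl : ∀ x, ψ 1 x = x) :
    ∃ C : ℝ, 0 ≤ C ∧ ∀ x y, |Act H ψ y - Act H ψ x| ≤ C * ‖y - x‖ ^ 2 := by
  obtain ⟨K, hK, hKB, h0⟩ := h.supp
  have hA : Adm n H K := ⟨h.smooth, hK, hKB, h0⟩
  obtain ⟨C₁, hC₁, hT⟩ := taylor h.smooth hK h0
  obtain ⟨C₂, hL⟩ := exists_lip h
  have hXc : Continuous (fun p : ℝ × E n => XH (H p.1) p.2) := hA.XH_smooth.continuous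
  have hψc : ∀ x, Continuous (fun t => ψ t x) := fun x =>
    continuous_iff_continuousAt.mpr fun t => (h.der t x).continuousAt
  have hXψ : ∀ x, Continuous (fun t => XH (H t) (ψ t x)) := fun x =>
    hXc.comp (continuous_id.prodMk (hψc x))
  have haψ : ∀ x, Continuous (fun t => act H t (ψ t x)) := fun x =>
    (act_cont h).comp (continuous_id.prodMk (hψc x))
  refine ⟨(C₁ + n * C₂) * (C₂ : ℝ) ^ 2, by positivity, fun x y => ?_⟩
  set A : ℝ → ℝ := fun t => Om (ψ t x) (ψ t y - ψ t x) with hAdef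
  set A' : ℝ → ℝ := fun t => Om (XH (H t) (ψ t x)) (ψ t y - ψ t x) +
    Om (ψ t x) (XH (H t) (ψ t y) - XH (H t) (ψ t x)) with hA'def
  have hder : ∀ t, HasDerivAt A (A' t) t := fun t =>
    Om_deriv (h.der t x) ((h.der t y).sub (h.der t x))
  have hA'c : Continuous A' := by
    have e1 : Continuous (fun t => Om (XH (H t) (ψ t x)) (ψ t y - ψ t x)) :=
      Om_cont.comp ((hXψ x).prodMk ((hψc y).sub (hψc x)))
    have e2 : Continuous (fun t => Om (ψ t x) (XH (H t) (ψ t y) - XH (H t) (ψ t x))) :=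
      Om_cont.comp ((hψc x).prodMk ((hXψ y).sub (hXψ x)))
    exact e1.add e2
  have hint : ∫ t in (0 : ℝ)..1, A' t = 0 := by
    rw [intervalIntegral.integral_eq_sub_of_hasDerivAt (f := A) (fun t _ => hder t)
      (hA'c.intervalIntegrable _ _)]
    simp only [hAdef]
    rw [hl, hl, h.zero, h.zero, sub_self]
  -- the pointwise identity
  have hid : ∀ t, act H t (ψ t y) - act H t (ψ t x) - 1 / 2 * A' t =
      (H t (ψ t x + (ψ t y - ψ t x)) - H t (ψ t x) -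
        fderiv ℝ (H t) (ψ t x) (ψ t y - ψ t x)) +
      1 / 2 * Om (ψ t y - ψ t x) (XH (H t) (ψ t y) - XH (H t) (ψ t x)) := by
    intro t
    rw [Om_XH]
    simp only [hA'def, act]
    rw [show ψ t x + (ψ t y - ψ t x) = ψ t y by abel]
    simp only [Om_sub_left, Om_sub_right]
    have e1 := Om_anti (XH (H t) (ψ t x)) (ψ t y)
    have e2 := Om_anti (XH (H t) (ψ t x)) (ψ t x)
    rw [e1, e2]
    ring
  have hbd : ∀ t ∈ Icc (0 : ℝ) 1, ‖act H t (ψ t y) - act H t (ψ t x) - 1 / 2 * A' t‖ ≤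
      (C₁ + n * C₂) * (C₂ : ℝ) ^ 2 * ‖y - x‖ ^ 2 := by
    intro t ht
    rw [hid t]
    obtain ⟨l1, l2, -⟩ := hL t ht
    have hδ : ‖ψ t y - ψ t x‖ ≤ C₂ * ‖y - x‖ := by
      have := l1.dist_le_mul y x
      rwa [dist_eq_norm, dist_eq_norm] at this
    have hX : ‖XH (H t) (ψ t y) - XH (H t) (ψ t x)‖ ≤ C₂ * ‖ψ t y - ψ t x‖ := by
      have := l2.dist_le_mul (ψ t y) (ψ t x)
      rwa [dist_eq_norm, dist_eq_norm] at this
    have hδ0 : 0 ≤ ‖ψ t y - ψ t x‖ := norm_nonneg _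
    have hδ2 : ‖ψ t y - ψ t x‖ ^ 2 ≤ (C₂ : ℝ) ^ 2 * ‖y - x‖ ^ 2 := by
      rw [← mul_pow]
      exact pow_le_pow_left₀ hδ0 hδ 2
    have h1 := hT t ht (ψ t x) (ψ t y - ψ t x)
    have h2 := Om_bound (ψ t y - ψ t x) (XH (H t) (ψ t y) - XH (H t) (ψ t x))
    have h3 : ‖1 / 2 * Om (ψ t y - ψ t x) (XH (H t) (ψ t y) - XH (H t) (ψ t x))‖ ≤
        n * (C₂ * ‖ψ t y - ψ t x‖ ^ 2) := by
      rw [norm_mul, Real.norm_eq_abs (Om _ _)]
      have e : ‖(1 / 2 : ℝ)‖ = 1 / 2 := by norm_num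
      rw [e]
      have h4 : ‖ψ t y - ψ t x‖ * ‖XH (H t) (ψ t y) - XH (H t) (ψ t x)‖ ≤
          ‖ψ t y - ψ t x‖ * (C₂ * ‖ψ t y - ψ t x‖) := mul_le_mul_of_nonneg_left hX hδ0
      have hn : (0 : ℝ) ≤ n := Nat.cast_nonneg n
      calc 1 / 2 * |Om (ψ t y - ψ t x) (XH (H t) (ψ t y) - XH (H t) (ψ t x))|
          ≤ 1 / 2 * (2 * n * (‖ψ t y - ψ t x‖ * ‖XH (H t) (ψ t y) - XH (H t) (ψ t x)‖)) :=
            mul_le_mul_of_nonneg_left h2 (by norm_num)
        _ = n * (‖ψ t y - ψ t x‖ * ‖XH (H t) (ψ t y) - XH (H t) (ψ t x)‖) := by ring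
        _ ≤ n * (‖ψ t y - ψ t x‖ * (C₂ * ‖ψ t y - ψ t x‖)) := mul_le_mul_of_nonneg_left h4 hn
        _ = n * (C₂ * ‖ψ t y - ψ t x‖ ^ 2) := by ring
    calc _ ≤ C₁ * ‖ψ t y - ψ t x‖ ^ 2 + n * (C₂ * ‖ψ t y - ψ t x‖ ^ 2) :=
          (norm_add_le _ _).trans (add_le_add h1 h3)
      _ = (C₁ + n * C₂) * ‖ψ t y - ψ t x‖ ^ 2 := by ring
      _ ≤ (C₁ + n * C₂) * ((C₂ : ℝ) ^ 2 * ‖y - x‖ ^ 2) :=
          mul_le_mul_of_nonneg_left hδ2 (by positivity)
      _ = _ := by ring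
  have heq : Act H ψ y - Act H ψ x =
      ∫ t in (0 : ℝ)..1, (act H t (ψ t y) - act H t (ψ t x) - 1 / 2 * A' t) := by
    have i1 := (haψ y).intervalIntegrable (μ := volume) 0 1
    have i2 := (haψ x).intervalIntegrable (μ := volume) 0 1
    have i3 : IntervalIntegrable (fun t => 1 / 2 * A' t) volume 0 1 :=
      (continuous_const.mul hA'c).intervalIntegrable _ _
    rw [intervalIntegral.integral_sub (i1.sub i2) i3, intervalIntegral.integral_sub i1 i2,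
      intervalIntegral.integral_const_mul, hint, mul_zero, sub_zero]
    rfl
  rw [heq, ← Real.norm_eq_abs]
  have := intervalIntegral.norm_integral_le_of_norm_le_const (a := (0 : ℝ)) (b := 1)
    (f := fun t => act H t (ψ t y) - act H t (ψ t x) - 1 / 2 * A' t)
    (C := (C₁ + n * C₂) * (C₂ : ℝ) ^ 2 * ‖y - x‖ ^ 2) (fun t ht => by
      rw [uIoc_of_le (zero_le_one)] at ht
      exact hbd t ⟨ht.1.le, ht.2⟩)
  simpa using this

end Pool.Agent.W_68f289_t6
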