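import Pool.Agent.W_68f289_t6.ActQ

/-!
The action of a loop is zero.
-/

open Set Metric Topology MeasureTheory
open scoped NNReal ContDiff

namespace Pool.Agent.W_68f289_t6

open Pool.Agent.W_MP_68f289_gt

variable {n : ℕ}

/-- TASK Act3. A function with quadratic increments on a normed space is constant (its derivative
is zero everywhere: `is_const_of_fderiv_eq_zero`). -/
lemma const_of_quad {V : Type*} [NormedAddCommGroup V] [NormedSpace ℝ V] {f : V → ℝ} {C : ℝ}
    (h : ∀ x y, |f y - f x| ≤ C * ‖y - x‖ ^ 2) (x y : V) : f x = f y := by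
  have hd : ∀ x, HasFDerivAt f (0 : V →L[ℝ] ℝ) x := by
    intro x
    have h1 : (fun y => f y - f x) =O[𝓝 x] fun y => ‖y - x‖ ^ 2 := by
      refine Asymptotics.IsBigO.of_bound C (Filter.Eventually.of_forall fun y => ?_)
      rw [Real.norm_eq_abs, Real.norm_eq_abs, abs_of_nonneg (sq_nonneg ‖y - x‖)]
      exact h x y
    have h2 : HasFDerivAt (fun y => f y - f x) (0 : V →L[ℝ] ℝ) x :=
      h1.hasFDerivAt (by norm_num)
    have h3 := h2.add_const (f x)
    simp only [sub_add_cancel] at h3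
    exact h3
  exact is_const_of_fderiv_eq_zero (𝕜 := ℝ) (fun x => (hd x).differentiableAt)
    (fun x => (hd x).fderiv) x y

/-- TASK Act3. The action of a loop is zero: it is constant, and zero at a point outside the
support of `H` (for `n ≥ 1` the point `(fun _ => 2, fun _ => 0)` is not in the ball `Bl n`;
`flow_off`, `act_off`). -/
lemma Act_zero (hn : 1 ≤ n) {H : ℝ → E n → ℝ} {ψ : ℝ → E n → E n} (h : HIso n H ψ)
    (hl : ∀ x, ψ 1 x = x) (x : E n) : Act H ψ x = 0 := by
  obtain ⟨C, -, hC⟩ := Act_quad h hl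
  obtain ⟨K, hK, hKB, h0⟩ := h.supp
  obtain ⟨p, hp⟩ : ∃ p : E n, p = ((fun _ => 2), (fun _ => 0)) := ⟨_, rfl⟩
  have hpK : p ∉ K := by
    intro hpK
    have h1 : qf p < 1 := hKB hpK
    have h2 : (1 : ℝ) ≤ n := by exact_mod_cast hn
    rw [hp] at h1
    unfold qf at h1
    simp at h1
    linarith
  rw [const_of_quad hC x p]
  unfold Act
  have h1 : ∀ t ∈ uIcc (0 : ℝ) 1, act H t (ψ t p) = 0 := by
    intro t ht
    rw [uIcc_of_le zero_le_one] at ht
    rw [flow_off h hK hKB h0 ht hpK]
    exact act_off h hK hKB h0 t hpK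
  rw [intervalIntegral.integral_congr (g := fun _ => (0 : ℝ)) h1]
  simp

end Pool.Agent.W_68f289_t6
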