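import Mathlib

/-!
Extension of homomorphisms to the real numbers.
-/

namespace Pool.Agent.W_68f289_t6

/-- Homomorphisms to `ℝ` extend from subgroups of abelian groups. -/
theorem AlgA_comm {A : Type*} [CommGroup A] (B : Subgroup A)
    (f : B →* Multiplicative ℝ) : ∃ g : A →* Multiplicative ℝ, ∀ b : B, g b = f b := by
  have hb : Module.Baer ℤ ℝ := Module.Baer.of_divisible ℝ
  obtain ⟨h, hh⟩ := hb.extension_property_addMonoidHom
    (M := Additive B) (N := Additive A) (MonoidHom.toAdditive B.subtype)
    (fun x y hxy => Subtype.ext hxy) (MonoidHom.toAdditiveLeft f)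
  refine ⟨AddMonoidHom.toMultiplicativeRight h, fun b => ?_⟩
  have := DFunLike.congr_fun hh (Additive.ofMul b)
  exact this

/-- TASK Alg1. A homomorphism from a subgroup `S` of `Γ` to `ℝ` which is trivial on `S ∩ [Γ, Γ]`
extends to `Γ`. Proof: `π = Abelianization.of.comp S.subtype : S →* Abelianization Γ` has kernel
`{s | s ∈ commutator Γ} ≤ ker φ`, so `φ` factors through `range π` (`QuotientGroup.lift`,
`QuotientGroup.quotientKerEquivRange`); as an additive map on `Additive (range π)` it extends to
`Additive (Abelianization Γ)` since `ℝ` is divisible: `Module.Baer.of_divisible` (or the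
corresponding lemma in `Mathlib.Algebra.Category.Grp.Injective`) and
`Module.Baer.extension_property_addMonoidHom`. -/
lemma ext_hom {Γ : Type*} [Group Γ] (S : Subgroup Γ) (φ : S →* Multiplicative ℝ)
    (h : ∀ s : S, (s : Γ) ∈ commutator Γ → φ s = 1) :
    ∃ f : Γ →* Multiplicative ℝ, ∀ s : S, f s = φ s := by
  let ρ : S →* Abelianization Γ := Abelianization.of.comp S.subtype
  have hker : ∀ s : S, ρ s = 1 → φ s = 1 := by
    intro s hs
    apply h
    have h1 : (Abelianization.of (s : Γ)) = 1 := hs
    rw [← MonoidHom.mem_ker, Abelianization.ker_of] at h1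
    exact h1
  let f : ρ.range →* Multiplicative ℝ :=
    { toFun := fun x => φ x.2.choose
      map_one' := by
        apply hker
        exact (1 : ρ.range).2.choose_spec
      map_mul' := fun x y => by
        have h1 : ρ ((x * y).2.choose * (x.2.choose * y.2.choose)⁻¹) = 1 := by
          rw [map_mul, map_inv, map_mul, (x * y).2.choose_spec, x.2.choose_spec,
            y.2.choose_spec]
          change ((x : Abelianization Γ) * (y : Abelianization Γ)) *
            ((x : Abelianization Γ) * (y : Abelianization Γ))⁻¹ = 1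
          rw [mul_inv_cancel]
        have h2 := hker _ h1
        rw [map_mul, map_inv, mul_inv_eq_one] at h2
        rw [h2, map_mul] }
  have hf : ∀ s : S, f ⟨ρ s, s, rfl⟩ = φ s := by
    intro s
    have hx : ∃ y, ρ y = ρ s := ⟨s, rfl⟩
    have h1 : ρ (hx.choose * s⁻¹) = 1 := by
      rw [map_mul, map_inv, hx.choose_spec, mul_inv_cancel]
    have h2 := hker _ h1
    rw [map_mul, map_inv, mul_inv_eq_one] at h2
    exact h2
  obtain ⟨g, hg⟩ := AlgA_comm ρ.range f
  refine ⟨g.comp Abelianization.of, fun s => ?_⟩
  have h2 := hg ⟨ρ s, s, rfl⟩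
  rw [hf] at h2
  exact h2

end Pool.Agent.W_68f289_t6
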