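import Mathlib

/-!
Subgroups of the real numbers stable under contractions.
-/

namespace Pool.Agent.W_68f289_t6

/-- TASK Alg2. A subgroup of `ℝ` which is stable under multiplication by `s ^ (m + 1)` for all
`0 < s ≤ 1` and contains `a ≠ 0` is everything. Proof: every `r` with `0 < r ≤ 1` is `s ^ (m + 1)`
(`Real.rpow` or `Real.exists_pow_nat_eq`-like: `s = r ^ (1/(m+1) : ℝ)`); for `c ≠ 0` choose
`k : ℕ`, `k > |c / a|`, then `c = ± (|c| / (k |a|)) * (k • a)`. -/
lemma scal_top {Λ : AddSubgroup ℝ} {m : ℕ}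
    (h : ∀ s : ℝ, 0 < s → s ≤ 1 → ∀ a ∈ Λ, s ^ (m + 1) * a ∈ Λ) {a : ℝ} (ha : a ∈ Λ)
    (ha0 : a ≠ 0) (c : ℝ) : c ∈ Λ := by
  have h1 : ∀ s : ℝ, 0 < s → s ≤ 1 → s * a ∈ Λ := by
    intro s hs hs1
    have h2 := h (s ^ (((m + 1 : ℕ) : ℝ)⁻¹)) (Real.rpow_pos_of_pos hs _)
      (Real.rpow_le_one hs.le hs1 (by positivity)) a ha
    rwa [Real.rpow_inv_natCast_pow hs.le (by omega)] at h2
  have h3 : ∀ s : ℝ, 0 < s → s * a ∈ Λ := by
    intro s hs
    obtain ⟨k, hk⟩ := exists_nat_ge s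
    have hk0 : (0 : ℝ) < k := lt_of_lt_of_le hs hk
    have h4 := h1 (s / k) (by positivity) ((div_le_one hk0).2 hk)
    have h5 := Λ.nsmul_mem h4 k
    rw [nsmul_eq_mul] at h5
    have e : (k : ℝ) * (s / k * a) = s * a := by field_simp
    rwa [e] at h5
  rcases lt_trichotomy (c / a) 0 with hy | hy | hy
  · have h6 := Λ.neg_mem (h3 (-(c / a)) (by linarith))
    have e : -(-(c / a) * a) = c := by field_simp
    rwa [e] at h6
  · have : c = 0 := by
      rcases div_eq_zero_iff.1 hy with h7 | h7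
      · exact h7
      · exact absurd h7 ha0
    rw [this]
    exact Λ.zero_mem
  · have h6 := h3 (c / a) hy
    have e : c / a * a = c := by field_simp
    rwa [e] at h6

end Pool.Agent.W_68f289_t6
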