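import Pool.Agent.W_68f289_t6.Om

/-!
Determinant of symplectic maps.
-/

open Set Metric Topology MeasureTheory
open scoped NNReal ContDiff

namespace Pool.Agent.W_68f289_t6

open Pool.Agent.W_MP_68f289_gt

variable {n : ℕ}

/-- TASK Liou2. Linear maps preserving the symplectic form have determinant `± 1`. Proof: the
bilinear form `OmB n` is nondegenerate; in a basis, with `M` the matrix of `OmB n` and `P` the matrix
of `A`, `Pᵀ * M * P = M` (`LinearMap.BilinForm.toMatrix_comp` /
`LinearMap.toMatrix₂_compl₁₂`), `det M ≠ 0`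
(`LinearMap.BilinForm.nondegenerate_iff_det_ne_zero`), hence `det P ^ 2 = 1`. -/
lemma det_one {A : E n →L[ℝ] E n} (hA : ∀ v w, Om (A v) (A w) = Om v w) : |A.det| = 1 := by
  let b := Module.finBasis ℝ (E n)
  have hnd : LinearMap.Nondegenerate (OmB n) := by
    have hl : (OmB n).SeparatingLeft := by
      intro v hv
      have h1 : ∀ w, Om v w = 0 := hv
      apply Prod.ext
      · funext i
        have h2 := h1 (0, uv i)
        rw [Om_apply] at h2
        simpa [uv, Pi.single_apply] using h2
      · funext i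
        have h2 := h1 (uv i, 0)
        rw [Om_apply] at h2
        simpa [uv, Pi.single_apply] using h2
    refine ⟨hl, ?_⟩
    intro v hv
    apply hl
    intro w
    have h3 : Om w v = 0 := hv w
    have h4 : Om v w = 0 := by rw [Om_anti, h3, neg_zero]
    exact h4
  have hM : (LinearMap.BilinForm.toMatrix b (OmB n)).det ≠ 0 :=
    (LinearMap.BilinForm.nondegenerate_iff_det_ne_zero b).1 hnd
  have hcomp : LinearMap.BilinForm.comp (OmB n) (A : E n →ₗ[ℝ] E n) (A : E n →ₗ[ℝ] E n) = OmB n := by
    refine LinearMap.ext fun v => LinearMap.ext fun w => ?_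
    exact hA v w
  have h5 := LinearMap.BilinForm.toMatrix_comp b b (OmB n) (A : E n →ₗ[ℝ] E n) (A : E n →ₗ[ℝ] E n)
  rw [hcomp] at h5
  have h6 := congrArg Matrix.det h5
  rw [Matrix.det_mul, Matrix.det_mul, Matrix.det_transpose, LinearMap.det_toMatrix] at h6
  have h7 : LinearMap.det (A : E n →ₗ[ℝ] E n) * LinearMap.det (A : E n →ₗ[ℝ] E n) = 1 := by
    have h8 : (LinearMap.BilinForm.toMatrix b (OmB n)).det *
        (LinearMap.det (A : E n →ₗ[ℝ] E n) * LinearMap.det (A : E n →ₗ[ℝ] E n)) =
        (LinearMap.BilinForm.toMatrix b (OmB n)).det * 1 := by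
      rw [mul_one]
      conv_rhs => rw [h6]
      ring
    exact mul_left_cancel₀ hM h8
  have h9 : A.det = LinearMap.det (A : E n →ₗ[ℝ] E n) := rfl
  rw [h9, ← abs_one, abs_eq_abs]
  exact mul_self_eq_one_iff.1 h7

end Pool.Agent.W_68f289_t6
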