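import Pool.Agent.W_68f289_t6.DichD
import Pool.Agent.W_MP_68f289_gt.Hameo

/-!
Stability under homotheties.
-/

open Set Metric Topology MeasureTheory commutatorElement
open scoped NNReal ContDiff

namespace Pool.Agent.W_68f289_t6

open Pool.Agent.W_MP_68f289_gt

variable {n : ℕ}

/-- TASK Dich1. `HT.mem` for `sc n s h0 h1`. -/
lemma Hst_HamBar : Hst (HamBar n) := by
  intro g hg s h0 h1
  exact (sc n s h0 h1).mem hg

lemma Ds1_hofer (s : ℝ) (h0 : 0 < s) (H H' : ℝ → E n → ℝ) :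
    hofer (fun t x => scH s H t x - scH s H' t x) = s ^ 2 * hofer (fun t x => H t x - H' t x) := by
  have hs : (0 : ℝ) ≤ s ^ 2 := by positivity
  let e : E n ≃ E n := (aff 0 s h0.ne').symm.toEquiv
  have he : ∀ x : E n, e x = s⁻¹ • x := by
    intro x
    change (aff 0 s h0.ne').symm x = _
    rw [aff_symm_apply, sub_zero]
  unfold W_MP_68f289_gt.hofer
  rw [← intervalIntegral.integral_const_mul]
  congr 1
  funext t
  have h1 : ∀ x : E n, scH s H t x - scH s H' t x = s ^ 2 * (H t (e x) - H' t (e x)) := by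
    intro x
    simp only [scH, he]
    ring
  have h2 : (⨆ x : E n, (scH s H t x - scH s H' t x)) = s ^ 2 * ⨆ x : E n, (H t x - H' t x) := by
    rw [← Equiv.iSup_comp (g := fun x : E n => H t x - H' t x) e, Real.mul_iSup_of_nonneg hs]
    exact iSup_congr h1
  have h3 : (⨅ x : E n, (scH s H t x - scH s H' t x)) = s ^ 2 * ⨅ x : E n, (H t x - H' t x) := by
    rw [← Equiv.iInf_comp (g := fun x : E n => H t x - H' t x) e, Real.mul_iInf_of_nonneg hs]
    exact iInf_congr h1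
  rw [h2, h3]
  ring

lemma Ds1_gen {g : E n ≃ₜ E n} (hg : g ∈ hameos n) (s : ℝ) (h0 : 0 < s) (h1 : s ≤ 1) :
    aff 0 s h0.ne' * g * (aff 0 s h0.ne')⁻¹ ∈ hameos n := by
  obtain ⟨K, hK, hKB, H, ψ, hH, hHK, hC, Φ, hlim, hΦ⟩ := hg
  refine ⟨aff 0 s h0.ne' '' K, hK.image (aff 0 s h0.ne').continuous, ?_, fun k => scH s (H k),
    fun k => scf s (ψ k), fun k => scH_iso (hH k) h0 h1, ?_, ?_,
    fun t => aff 0 s h0.ne' * Φ t * (aff 0 s h0.ne')⁻¹, ?_, ?_⟩
  · rintro _ ⟨x, hx, rfl⟩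
    exact (sc n s h0 h1).hB x (hKB hx)
  · intro k t x hx
    change s ^ 2 * H k t (s⁻¹ • x) = 0
    rw [hHK, mul_zero]
    intro hx'
    exact hx ⟨_, hx', by rw [aff_apply, smul_inv_smul₀ h0.ne', zero_add]⟩
  · intro ε hε
    obtain ⟨N, hN⟩ := hC (ε / s ^ 2) (by positivity)
    refine ⟨N, fun j k hj hk => ?_⟩
    rw [Ds1_hofer s h0]
    have h2 := hN j k hj hk
    rw [lt_div_iff₀ (by positivity)] at h2
    linarith
  · intro ε hε
    obtain ⟨N, hN⟩ := hlim (ε / s) (by positivity)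
    refine ⟨N, fun k hk t x => ?_⟩
    change dist (s • ψ k t (s⁻¹ • x)) (0 + s • Φ t ((aff 0 s h0.ne')⁻¹ x)) < ε
    rw [aff_inv_apply, sub_zero, zero_add, dist_smul₀, Real.norm_eq_abs, abs_of_pos h0]
    have h2 := hN k hk t (s⁻¹ • x)
    rw [lt_div_iff₀ h0] at h2
    linarith
  · change aff 0 s h0.ne' * Φ ⟨1, _⟩ * (aff 0 s h0.ne')⁻¹ = _
    rw [hΦ]

/-- TASK Dich2. Stability of the group of hameomorphisms. By `Subgroup.closure` (image of a
closure under the conjugation homomorphism `MulAut.conj (aff 0 s _)`, `MonoidHom.map_closure`) it is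
enough to treat `g ∈ hameos n` with data `K, H, ψ, Φ`: take `K' = aff 0 s _ '' K`, `scH s (H k)`,
`scf s (ψ k)` (`scH_iso`), `Φ' t = aff * Φ t * aff⁻¹`. Hofer norm: `scH s (H j) - scH s (H k)` is
`s ^ 2` times `(H j - H k) t (s⁻¹ • x)`, same suprema and infima (reindex by the bijection
`x ↦ s⁻¹ • x`, `Equiv.iSup_comp`), so it is Cauchy; uniform convergence: distances are multiplied
by `s`. -/
lemma Hst_Hameo : Hst (Hameo n) := by
  intro g hg s h0 h1
  unfold Hameo at hg ⊢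
  induction hg using Subgroup.closure_induction with
  | mem g hg => exact Subgroup.subset_closure (Ds1_gen hg s h0 h1)
  | one =>
    have h2 : aff (n := n) 0 s h0.ne' * 1 * (aff 0 s h0.ne')⁻¹ = 1 := by group
    rw [h2]
    exact one_mem _
  | mul a b _ _ ha hb =>
    have h2 : aff 0 s h0.ne' * (a * b) * (aff 0 s h0.ne')⁻¹ =
        (aff 0 s h0.ne' * a * (aff 0 s h0.ne')⁻¹) * (aff 0 s h0.ne' * b * (aff 0 s h0.ne')⁻¹) := by
      group
    rw [h2]
    exact mul_mem ha hb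
  | inv a _ ha =>
    have h2 : aff 0 s h0.ne' * a⁻¹ * (aff 0 s h0.ne')⁻¹ =
        (aff 0 s h0.ne' * a * (aff 0 s h0.ne')⁻¹)⁻¹ := by
      group
    rw [h2]
    exact inv_mem ha

end Pool.Agent.W_68f289_t6
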