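import Pool.Agent.W_68f289_t6.DichD
import Pool.Agent.W_68f289_t6.Act

/-!
The Calabi homomorphism on Hamiltonian diffeomorphisms.
-/

open Set Metric Topology MeasureTheory commutatorElement
open scoped NNReal ContDiff

namespace Pool.Agent.W_68f289_t6

open Pool.Agent.W_MP_68f289_gt

variable {n : ℕ}

/-- TASK Dich3. The Calabi homomorphism on the Hamiltonian diffeomorphisms of `L`: choose `H, ψ` for
every `u ∈ HamL L` (`Classical.choose`), independence by `cal_unique`, multiplicativity by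
`conc_iso`, `concf_one`, `cal_conc` (ℝ is commutative: `u * v` is first `v` then `u`). -/
lemma exists_calL (hn : 1 ≤ n) (L : Subgroup (E n ≃ₜ E n)) :
    ∃ φ : HamL L →* Multiplicative ℝ, ∀ (u : HamL L) (H : ℝ → E n → ℝ) (ψ : ℝ → E n → E n),
      HIso n H ψ → (∀ x, ((u : Ty L) : E n ≃ₜ E n) x = ψ 1 x) →
        φ u = Multiplicative.ofAdd (cal H) := by
  have hex : ∀ u : HamL L, ∃ H : ℝ → E n → ℝ, ∃ ψ : ℝ → E n → E n, HIso n H ψ ∧
      ∀ x, ((u : Ty L) : E n ≃ₜ E n) x = ψ 1 x := fun u => u.2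
  choose H ψ hH hψ using hex
  refine ⟨MonoidHom.mk' (fun u => Multiplicative.ofAdd (cal (H u))) ?_, ?_⟩
  · intro u v
    rw [← ofAdd_add]
    congr 1
    have h1 := conc_iso (hH v) (hH u)
    have h2 := cal_conc (hH v) (hH u)
    rw [cal_unique hn (hH (u * v)) h1 ?_, h2, add_comm]
    intro x
    rw [concf_one, ← hψ (u * v), ← hψ v, ← hψ u]
    rfl
  · intro u H' ψ' h' e
    rw [MonoidHom.mk'_apply]
    congr 1
    exact cal_unique hn (hH u) h' fun x => by rw [← hψ u, e]

end Pool.Agent.W_68f289_t6
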