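import Pool.Agent.W_68f289_t6.DichD

/-!
The group of Calabi invariants of products of commutators.
-/

open Set Metric Topology MeasureTheory commutatorElement
open scoped NNReal ContDiff

namespace Pool.Agent.W_68f289_t6

open Pool.Agent.W_MP_68f289_gt

variable {n : ℕ}

/-- TASK Dich4. The set of Calabi invariants of elements of the commutator subgroup is a subgroup
of `ℝ`, stable under multiplication by `s ^ (2n+2)`: `conc_iso`/`cal_conc`, `rev_iso`/`cal_rev`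
(`revf_one`), `scH_iso`/`cal_scH`; the endomorphism `scL` maps `commutator (Ty L)` into itself. -/
lemma exists_Lam {L : Subgroup (E n ≃ₜ E n)} (hs : Hst L) :
    ∃ Λ : AddSubgroup ℝ, (∀ c : ℝ, c ∈ Λ ↔ ∃ u ∈ commutator (Ty L), ∃ (H : ℝ → E n → ℝ)
      (ψ : ℝ → E n → E n), HIso n H ψ ∧ (∀ x, (u : E n ≃ₜ E n) x = ψ 1 x) ∧ cal H = c) ∧
      ∀ s : ℝ, 0 < s → s ≤ 1 → ∀ a ∈ Λ, s ^ (2 * n + 1 + 1) * a ∈ Λ := by
  have hz : HIso n (fun _ _ => (0 : ℝ)) (fun _ x => x) :=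
    ⟨contDiff_const, ⟨∅, isCompact_empty, Set.empty_subset _, fun _ _ _ => rfl⟩, fun _ => rfl,
      fun t x => by
        rw [XH_zero]
        exact hasDerivAt_const t x⟩
  refine ⟨{ carrier := {c | ∃ u ∈ commutator (Ty L), ∃ (H : ℝ → E n → ℝ)
      (ψ : ℝ → E n → E n), HIso n H ψ ∧ (∀ x, (u : E n ≃ₜ E n) x = ψ 1 x) ∧ cal H = c}
            zero_mem' := ?_
            add_mem' := ?_
            neg_mem' := ?_ }, fun c => Iff.rfl, ?_⟩
  · rintro a b ⟨u, hu, H, ψ, h1, h2, h3⟩ ⟨v, hv, H', ψ', h1', h2', h3'⟩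
    refine ⟨v * u, mul_mem hv hu, conc H H', concf ψ ψ', conc_iso h1 h1', fun x => ?_, ?_⟩
    · rw [concf_one, ← h2, ← h2']
      rfl
    · rw [cal_conc h1 h1', h3, h3']
  · refine ⟨1, one_mem _, fun _ _ => 0, fun _ x => x, hz, fun x => rfl, ?_⟩
    unfold cal
    simp
  · rintro a ⟨u, hu, H, ψ, h1, h2, h3⟩
    refine ⟨u⁻¹, inv_mem hu, rev H, revf (u : E n ≃ₜ E n) ψ, rev_iso h1 h2, fun x => ?_, ?_⟩
    · rw [revf_one h1]
      rfl
    · rw [cal_rev, h3]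
  · rintro s h0 h1 a ⟨u, hu, H, ψ, h2, h3, h4⟩
    refine ⟨scL hs s h0 h1 u, ?_, scH s H, scf s ψ, scH_iso h2 h0 h1, fun x => ?_, ?_⟩
    · have h5 : scL hs s h0 h1 u ∈ (commutator (Ty L)).map (scL hs s h0 h1) :=
        Subgroup.mem_map_of_mem _ hu
      rw [commutator_def, Subgroup.map_commutator] at h5
      rw [commutator_def]
      exact Subgroup.commutator_mono le_top le_top h5
    · change (aff 0 s h0.ne') ((u : E n ≃ₜ E n) ((aff 0 s h0.ne')⁻¹ x)) = s • ψ 1 (s⁻¹ • x)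
      rw [aff_inv_apply, aff_apply, h3, sub_zero, zero_add]
    · rw [cal_scH H h0, h4]

end Pool.Agent.W_68f289_t6
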