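import Pool.Agent.W_68f289_t6.DichD

/-!
Nontrivial normal subgroups contain strong contractions of the commutator subgroup.
-/

open Set Metric Topology MeasureTheory commutatorElement
open scoped NNReal ContDiff Pointwise

namespace Pool.Agent.W_68f289_t6

open Pool.Agent.W_MP_68f289_gt

variable {n : ℕ}

/-- Commutators of elements with small support around a point lie in every nontrivial normal
subgroup. -/
theorem Ds4_small {Gr X : Type*} [Group Gr] [MetricSpace X] [MulAction Gr X]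
    [ContinuousConstSMul Gr X] [FaithfulSMul Gr X] {B : Set X} (S : Sys Gr B) {N : Subgroup Gr}
    (hN : N.Normal) (hN1 : N ≠ ⊥) {p : X}
    (hp : p ∈ B) : ∃ ε > 0, ∀ a b : Gr, Off a (ball p ε) → Off b (ball p ε) → ⁅a, b⁆ ∈ N := by
  have hLT := S.LT_of_norm hN1 (fun m _ l hl => hN.conj_mem l hl m) p hp
  obtain ⟨W, hW, h1⟩ := hLT B S.openB subset_rfl hp
  obtain ⟨q, hq, hqp⟩ := S.perf p hp W hW
  obtain ⟨c, hc, _, hcp⟩ := h1 q hq
  obtain ⟨V, hV, _, hpV, hd⟩ := exists_disj (g := c) (by rw [hcp]; exact hqp) S.openB hp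
  obtain ⟨ε, hε, hεV⟩ := Metric.isOpen_iff.1 hV p hpV
  refine ⟨ε, hε, fun a b ha hb => ?_⟩
  have h2 : Off (c * a⁻¹ * c⁻¹) (c • V) := (ha.mono hεV).inv.conj c
  have e := comm_comm (h2.commute (hb.mono hεV) hd)
  rw [← e]
  have hc1 : ⁅a, c⁆ ∈ N := by
    rw [commutatorElement_def]
    exact mul_mem (hN.conj_mem c hc a) (inv_mem hc)
  have e1 : ⁅⁅a, c⁆, b⁆ = ⁅a, c⁆ * (b * ⁅a, c⁆⁻¹ * b⁻¹) := by
    rw [commutatorElement_def ⁅a, c⁆ b]; group
  rw [e1]
  exact mul_mem hc1 (hN.conj_mem _ (inv_mem hc1) b)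

theorem Ds4_off {L : Subgroup (E n ≃ₜ E n)} (hL : Big L) (hs : Hst L) {s : ℝ} (h0 : 0 < s)
    (h1 : s ≤ 1) {ε : ℝ} (hε : s ≤ ε) (g : Ty L) : Off (scL hs s h0 h1 g) (ball (0 : E n) ε) := by
  intro x hx
  obtain ⟨K, _, hKB, hK⟩ := hL.supp g g.2
  change (0 : E n) + s • (g : E n ≃ₜ E n) ((aff 0 s h0.ne')⁻¹ x) = x
  rw [aff_inv_apply, sub_zero, zero_add]
  rw [hK]
  · exact smul_inv_smul₀ h0.ne' x
  · intro hmem
    apply hx
    have h2 : ‖s⁻¹ • x‖ < 1 := lt_of_le_of_lt (norm_le_en _) (mem_Bl.1 (hKB hmem))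
    rw [norm_smul, norm_inv, Real.norm_eq_abs, abs_of_pos h0, inv_mul_lt_iff₀ h0, mul_one] at h2
    rw [mem_ball_zero_iff]
    exact lt_of_lt_of_le h2 hε

/-- TASK Dich5. A nontrivial normal subgroup contains the image of the commutator subgroup under a
strong contraction. Proof: `S := sysL hn hL : Sys L (Bl n)`; by `S.LT_of_norm` and
`S.small_normal` with `K = CB n (1/2)` there is `ε > 0` with `⁅a, b⁆ ∈ N` for all `a` supported in a
ball of radius `ε` (in the metric of `E n`, sup norm) and `b` supported in `K`. For `s` small the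
images `scL hs s h0 h1 g` are supported in `s • Bl n`, which lies in `ball 0 ε ∩ CB n (1/2)`
(`norm_le_en`, `en_smul`, `Big.supp`). So `scL` maps all commutators, hence `commutator (Ty L)`,
into `N` (`Subgroup.commutator_le`-type induction, `Subgroup.map_commutator`). -/
lemma exists_contr (hn : 1 ≤ n) {L : Subgroup (E n ≃ₜ E n)} (hL : Big L) (hs : Hst L)
    {N : Subgroup (Ty L)} (hN : N.Normal) (hN1 : N ≠ ⊥) :
    ∃ (s : ℝ) (h0 : 0 < s) (h1 : s ≤ 1), ∀ g ∈ commutator (Ty L), scL hs s h0 h1 g ∈ N := by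
  have h0B : (0 : E n) ∈ Bl n := by
    rw [mem_Bl, en_zero]
    norm_num
  obtain ⟨ε, hε, h⟩ := Ds4_small (sysL hn hL) hN hN1 h0B
  have h0 : 0 < min ε 1 := lt_min hε one_pos
  refine ⟨min ε 1, h0, min_le_right _ _, ?_⟩
  have key : commutator (Ty L) ≤ N.comap (scL hs (min ε 1) h0 (min_le_right _ _)) := by
    rw [commutator_def, Subgroup.commutator_le]
    intro a _ b _
    rw [Subgroup.mem_comap, map_commutatorElement]
    exact h _ _ (Ds4_off hL hs h0 _ (min_le_left _ _) a) (Ds4_off hL hs h0 _ (min_le_left _ _) b)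
  exact fun g hg => key hg

/-- TASK Dich6. The group is not commutative (`Sys.Mo_ne_bot` for `sysL hn hL` and
`Mo = ⁅Fc, ⊤⁆ ≤ commutator`). -/
lemma comm_ne_bot (hn : 1 ≤ n) {L : Subgroup (E n ≃ₜ E n)} (hL : Big L) :
    commutator (Ty L) ≠ ⊥ := by
  intro h
  apply (sysL hn hL).Mo_ne_bot
  rw [eq_bot_iff, ← h, commutator_def]
  exact Subgroup.commutator_mono le_top le_rfl

end Pool.Agent.W_68f289_t6
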