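import Pool.Agent.W_68f289_t6.AlgA
import Pool.Agent.W_68f289_t6.AlgB
import Pool.Agent.W_68f289_t6.Ds1
import Pool.Agent.W_68f289_t6.Ds2
import Pool.Agent.W_68f289_t6.Ds3
import Pool.Agent.W_68f289_t6.Ds4

/-!
The Calabi dichotomy for groups of homeomorphisms of the ball which contain the Hamiltonian
diffeomorphisms and are stable under homotheties.
-/

open Set Metric Topology MeasureTheory commutatorElement
open scoped NNReal ContDiff

namespace Pool.Agent.W_68f289_t6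

open Pool.Agent.W_MP_68f289_gt

variable {n : ℕ}

/-- The Calabi dichotomy. -/
theorem dich (hn : 1 ≤ n) {L : Subgroup (E n ≃ₜ E n)} (hL : Big L) (hs : Hst L) :
    (∃ f : Ty L →* Multiplicative ℝ, ExtCal f) ∨
      ∀ N : Subgroup (Ty L), N.Normal → N ≠ ⊥ → AllCal N := by
  obtain ⟨Λ, hΛ, hsΛ⟩ := exists_Lam hs
  by_cases h0 : ∀ a ∈ Λ, a = 0
  · left
    obtain ⟨φ, hφ⟩ := exists_calL hn L
    obtain ⟨f, hf⟩ := ext_hom (HamL L) φ (by
      rintro ⟨u, hu⟩ huc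
      obtain ⟨H, ψ, hH, hu1⟩ : IsHam n (u : E n ≃ₜ E n) := hu
      have h2 := hφ ⟨u, ⟨H, ψ, hH, hu1⟩⟩ H ψ hH hu1
      rw [h2, h0 (cal H) ((hΛ _).2 ⟨u, huc, H, ψ, hH, hu1, rfl⟩)]
      rfl)
    refine ⟨f, fun u H ψ hH hu => ?_⟩
    have h1 : u ∈ HamL L := ⟨H, ψ, hH, hu⟩
    rw [← hφ ⟨u, h1⟩ H ψ hH hu, ← hf]
  · right
    push Not at h0
    obtain ⟨a, ha, ha0⟩ := h0
    intro N hN hN1 c
    obtain ⟨s, s0, s1, hsN⟩ := exists_contr hn hL hs hN hN1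
    have h2 := (hΛ (c / s ^ (2 * n + 2))).1 (scal_top hsΛ ha ha0 _)
    obtain ⟨u, hu, H, ψ, hH, huψ, hc⟩ := h2
    refine ⟨scL hs s s0 s1 u, hsN u hu, scH s H, scf s ψ, scH_iso hH s0 s1, ?_, ?_⟩
    · intro x
      change (0 : E n) + s • (u : E n ≃ₜ E n) ((aff 0 s s0.ne')⁻¹ x) = s • ψ 1 (s⁻¹ • x)
      rw [aff_inv_apply, zero_add, sub_zero, huψ]
    · rw [cal_scH H s0, hc]
      field_simp

lemma Hst_of_Scal {L : Subgroup (E n ≃ₜ E n)} (h : Scal L) : Hst L := by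
  intro g hg s h0 h1
  obtain ⟨g', hg', e⟩ := h g hg s h0 h1
  have : aff 0 s h0.ne' * g * (aff 0 s h0.ne')⁻¹ = g' := by
    apply Homeomorph.ext
    intro x
    change (0 : E n) + s • g ((aff 0 s h0.ne')⁻¹ x) = g' x
    rw [aff_inv_apply, zero_add, sub_zero, ← e, smul_inv_smul₀ h0.ne']
  rw [this]
  exact hg'

lemma Scal_of_Hst {L : Subgroup (E n ≃ₜ E n)} (h : Hst L) : Scal L := by
  intro g hg s h0 h1
  refine ⟨_, h g hg s h0 h1, fun x => ?_⟩
  change (0 : E n) + s • g ((aff 0 s h0.ne')⁻¹ (s • x)) = s • g x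
  rw [aff_inv_apply, zero_add, sub_zero, inv_smul_smul₀ h0.ne']

/-- The two cases exclude each other. -/
theorem excl (hn : 1 ≤ n) {L : Subgroup (E n ≃ₜ E n)} (hL : Big L)
    (h1 : ∃ f : Ty L →* Multiplicative ℝ, ExtCal f)
    (h2 : ∀ N : Subgroup (Ty L), N.Normal → N ≠ ⊥ → AllCal N) : False := by
  obtain ⟨f, hf⟩ := h1
  have h3 : f.ker ≠ ⊥ := by
    intro h
    apply comm_ne_bot hn hL
    rw [eq_bot_iff, ← h, commutator_def, Subgroup.commutator_le]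
    intro a _ b _
    rw [MonoidHom.mem_ker, map_commutatorElement]
    exact commutatorElement_eq_one_iff_mul_comm.2 (mul_comm _ _)
  obtain ⟨u, hu, H, ψ, hH, hu1, hc⟩ := h2 f.ker (MonoidHom.normal_ker f) h3 1
  have h4 := hf u H ψ hH hu1
  rw [MonoidHom.mem_ker] at hu
  rw [hu, hc] at h4
  exact one_ne_zero (α := ℝ) (Multiplicative.ofAdd.injective h4).symm

end Pool.Agent.W_68f289_t6
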