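import Pool.Agent.W_68f289_t6.Cal

/-!
Definitions for the Calabi dichotomy.
-/

open Set Metric Topology MeasureTheory commutatorElement
open scoped NNReal ContDiff

namespace Pool.Agent.W_68f289_t6

open Pool.Agent.W_MP_68f289_gt

variable {n : ℕ}

/-- stability under homotheties -/
def Hst (L : Subgroup (E n ≃ₜ E n)) : Prop :=
  ∀ g ∈ L, ∀ (s : ℝ) (h0 : 0 < s), s ≤ 1 → aff 0 s h0.ne' * g * (aff 0 s h0.ne')⁻¹ ∈ L

/-- the homothety acting on the group -/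
noncomputable def scL {L : Subgroup (E n ≃ₜ E n)} (hs : Hst L) (s : ℝ) (h0 : 0 < s)
    (h1 : s ≤ 1) : Ty L →* Ty L where
  toFun g := ⟨aff 0 s h0.ne' * (g : E n ≃ₜ E n) * (aff 0 s h0.ne')⁻¹, hs g g.2 s h0 h1⟩
  map_one' := by apply Subtype.ext; simp
  map_mul' g h := by
    apply Subtype.ext
    change aff 0 s h0.ne' * ((g : E n ≃ₜ E n) * (h : E n ≃ₜ E n)) * (aff 0 s h0.ne')⁻¹ =
      (aff 0 s h0.ne' * (g : E n ≃ₜ E n) * (aff 0 s h0.ne')⁻¹) *
        (aff 0 s h0.ne' * (h : E n ≃ₜ E n) * (aff 0 s h0.ne')⁻¹)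
    group

/-- the subgroup of Hamiltonian diffeomorphisms of `L` -/
def HamL (L : Subgroup (E n ≃ₜ E n)) : Subgroup (Ty L) where
  carrier := {u | IsHam n (u : E n ≃ₜ E n)}
  one_mem' := isHam_one
  mul_mem' ha hb := isHam_mul ha hb
  inv_mem' ha := isHam_inv ha

end Pool.Agent.W_68f289_t6
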