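import Pool.Agent.W_68f289_t6.Pres
import Pool.Agent.W_68f289_t6.Det
import Pool.Agent.W_68f289_t6.Haar

/-!
Half of Liouville's theorem.
-/

open Set Metric Topology MeasureTheory
open scoped NNReal ContDiff

namespace Pool.Agent.W_68f289_t6

open Pool.Agent.W_MP_68f289_gt

variable {n : ℕ}

/-- TASK Liou3. Half of Liouville's theorem. Proof: `u` is Lipschitz (`exists_lip` at `t = 1`), so
the set `s` of points of differentiability of `u` has full measure (Rademacher:
`LipschitzWith.ae_differentiableAt`; `E n` is finite dimensional, `volume` is an additive Haar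
measure), it is measurable (`measurableSet_of_differentiableAt`). By
`MeasureTheory.lintegral_image_eq_lintegral_abs_det_fderiv_mul` on `s` with `u` injective,
`∫⁻ x in u '' s, g x = ∫⁻ x in s, |det| * g (u x) = ∫⁻ x, g (u x)` by `Om_pres` and `det_one`. -/
lemma lint_le {u : E n ≃ₜ E n} (hu : IsHam n u) (g : E n → ENNReal) :
    ∫⁻ x, g (u x) ≤ ∫⁻ x, g x := by
  obtain ⟨H, ψ, hH, hu1⟩ := hu
  obtain ⟨C, hC⟩ := exists_lip hH
  have e : (u : E n → E n) = ψ 1 := funext hu1
  have hlip : LipschitzWith C (u : E n → E n) := by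
    rw [e]; exact (hC 1 (by simp)).1
  set s : Set (E n) := {x | DifferentiableAt ℝ (u : E n → E n) x} with hsdef
  have hs : MeasurableSet s := measurableSet_of_differentiableAt ℝ (u : E n → E n)
  have hae : ∀ᵐ x ∂(volume : Measure (E n)), x ∈ s := hlip.ae_differentiableAt
  have hdet : ∀ x ∈ s, |(fderiv ℝ (u : E n → E n) x).det| = 1 := by
    intro x hx
    apply det_one
    intro v w
    have h1 : HasFDerivAt (ψ 1) (fderiv ℝ (u : E n → E n) x) x := by
      have h2 : HasFDerivAt (u : E n → E n) (fderiv ℝ (u : E n → E n) x) x :=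
        DifferentiableAt.hasFDerivAt hx
      rwa [e] at h2 ⊢
    exact Om_pres hH h1 v w
  have h1 := lintegral_image_eq_lintegral_abs_det_fderiv_mul volume hs
    (f := (u : E n → E n)) (f' := fun x => fderiv ℝ (u : E n → E n) x)
    (fun x hx => (DifferentiableAt.hasFDerivAt hx).hasFDerivWithinAt) u.injective.injOn g
  calc ∫⁻ x, g (u x) = ∫⁻ x in s, g (u x) := by
        rw [Measure.restrict_eq_self_of_ae_mem hae]
    _ = ∫⁻ x in s, ENNReal.ofReal |(fderiv ℝ (u : E n → E n) x).det| * g (u x) := by
        refine setLIntegral_congr_fun hs fun x hx => ?_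
        simp only [hdet x hx, ENNReal.ofReal_one, one_mul]
    _ = ∫⁻ x in (u : E n → E n) '' s, g x := h1.symm
    _ ≤ ∫⁻ x, g x := setLIntegral_le_lintegral _ _

end Pool.Agent.W_68f289_t6
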