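import Pool.Agent.W_MP_68f289_gt.Ham

/-!
The symplectic form.
-/

open Set Metric Topology MeasureTheory
open scoped NNReal ContDiff

namespace Pool.Agent.W_68f289_t6

open Pool.Agent.W_MP_68f289_gt

variable {n : ℕ}

/-- the symplectic form as a bilinear form -/
def OmB (n : ℕ) : E n →ₗ[ℝ] E n →ₗ[ℝ] ℝ :=
  LinearMap.mk₂ ℝ (fun v w => ∑ i, (v.1 i * w.2 i - v.2 i * w.1 i))
    (by intro a b c; simp only [Prod.fst_add, Prod.snd_add, Pi.add_apply]
        rw [← Finset.sum_add_distrib]; congr 1; ext i; ring)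
    (by intro a b c; simp only [Prod.smul_fst, Prod.smul_snd, Pi.smul_apply, smul_eq_mul]
        rw [Finset.mul_sum]; congr 1; ext i; ring)
    (by intro a b c; simp only [Prod.fst_add, Prod.snd_add, Pi.add_apply]
        rw [← Finset.sum_add_distrib]; congr 1; ext i; ring)
    (by intro a b c; simp only [Prod.smul_fst, Prod.smul_snd, Pi.smul_apply, smul_eq_mul]
        rw [Finset.mul_sum]; congr 1; ext i; ring)

/-- the symplectic form -/
def Om (v w : E n) : ℝ := OmB n v w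

lemma Om_apply (v w : E n) : Om v w = ∑ i, (v.1 i * w.2 i - v.2 i * w.1 i) := rfl

lemma Om_add_left (a b c : E n) : Om (a + b) c = Om a c + Om b c := by simp [Om]
lemma Om_add_right (a b c : E n) : Om a (b + c) = Om a b + Om a c := by simp [Om]
lemma Om_sub_left (a b c : E n) : Om (a - b) c = Om a c - Om b c := by simp [Om]
lemma Om_sub_right (a b c : E n) : Om a (b - c) = Om a b - Om a c := by simp [Om]
lemma Om_smul_left (r : ℝ) (a b : E n) : Om (r • a) b = r * Om a b := by simp [Om]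
lemma Om_smul_right (r : ℝ) (a b : E n) : Om a (r • b) = r * Om a b := by simp [Om]

lemma Om_anti (a b : E n) : Om a b = -Om b a := by
  rw [Om_apply, Om_apply, ← Finset.sum_neg_distrib]; congr 1; ext i; ring

/-- TASK Sym1. Each of the `2n` products is at most `‖a‖ * ‖b‖` (sup norms). -/
lemma Om_bound (a b : E n) : |Om a b| ≤ 2 * n * (‖a‖ * ‖b‖) := by
  rw [Om_apply]
  have h1 : ∀ i : Fin n, |a.1 i * b.2 i - a.2 i * b.1 i| ≤ 2 * (‖a‖ * ‖b‖) := by
    intro i
    have ha1 : |a.1 i| ≤ ‖a‖ := (norm_le_pi_norm a.1 i).trans (norm_fst_le a)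
    have ha2 : |a.2 i| ≤ ‖a‖ := (norm_le_pi_norm a.2 i).trans (norm_snd_le a)
    have hb1 : |b.1 i| ≤ ‖b‖ := (norm_le_pi_norm b.1 i).trans (norm_fst_le b)
    have hb2 : |b.2 i| ≤ ‖b‖ := (norm_le_pi_norm b.2 i).trans (norm_snd_le b)
    have h2 : |a.1 i * b.2 i| ≤ ‖a‖ * ‖b‖ := by
      rw [abs_mul]
      exact mul_le_mul ha1 hb2 (abs_nonneg _) (norm_nonneg _)
    have h3 : |a.2 i * b.1 i| ≤ ‖a‖ * ‖b‖ := by
      rw [abs_mul]
      exact mul_le_mul ha2 hb1 (abs_nonneg _) (norm_nonneg _)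
    calc |a.1 i * b.2 i - a.2 i * b.1 i| ≤ |a.1 i * b.2 i| + |a.2 i * b.1 i| := abs_sub _ _
      _ ≤ 2 * (‖a‖ * ‖b‖) := by linarith
  calc |∑ i, (a.1 i * b.2 i - a.2 i * b.1 i)| ≤ ∑ i, |a.1 i * b.2 i - a.2 i * b.1 i| :=
        Finset.abs_sum_le_sum_abs _ _
    _ ≤ ∑ _i : Fin n, 2 * (‖a‖ * ‖b‖) := Finset.sum_le_sum fun i _ => h1 i
    _ = 2 * n * (‖a‖ * ‖b‖) := by
        rw [Finset.sum_const, Finset.card_univ, Fintype.card_fin, nsmul_eq_mul]
        ring

/-- TASK Sym1. `Om` is continuous (a finite sum of products of coordinates). -/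
lemma Om_cont : Continuous fun p : E n × E n => Om p.1 p.2 := by
  simp only [Om_apply]
  fun_prop

/-- TASK Sym1. Derivative of `Om (a t) (b t)` (product rule; e.g. from
`HasDerivAt.finset_sum` or through continuous bilinear maps). -/
lemma Om_deriv {a b : ℝ → E n} {a' b' : E n} {t : ℝ} (ha : HasDerivAt a a' t)
    (hb : HasDerivAt b b' t) :
    HasDerivAt (fun s => Om (a s) (b s)) (Om a' (b t) + Om (a t) b') t := by
  let L : E n →L[ℝ] E n →L[ℝ] ℝ := (OmB n).mkContinuous₂ (2 * n) (by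
    intro x y
    have h1 := Om_bound x y
    rw [mul_assoc]
    exact h1)
  have h1 := L.hasDerivAt_of_bilinear (u := a) (v := b) (fun _ => ha) (fun _ => hb)
  have h2 : L (a t) b' + L a' (b t) = Om a' (b t) + Om (a t) b' := add_comm _ _
  rw [h2] at h1
  exact h1

/-- TASK Sym1. `dh (δ) = Om (X_h, δ)`: write `δ = ∑ i, δ.1 i • (uv i, 0) + δ.2 i • (0, uv i)` and use
linearity of `fderiv ℝ h z`; `XH h z = (dh (0, uv i), - dh (uv i, 0))`. -/
lemma Om_XH (h : E n → ℝ) (z δ : E n) : fderiv ℝ h z δ = Om (XH h z) δ := by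
  have hδ : δ = ∑ i : Fin n, (δ.1 i • ((uv i, 0) : E n) + δ.2 i • ((0, uv i) : E n)) := by
    apply Prod.ext
    · rw [Prod.fst_sum]
      funext j
      rw [Finset.sum_apply]
      simp [uv, Pi.single_apply]
    · rw [Prod.snd_sum]
      funext j
      rw [Finset.sum_apply]
      simp [uv, Pi.single_apply]
  have h1 : fderiv ℝ h z δ = ∑ i : Fin n, (δ.1 i * dd h z (uv i, 0) + δ.2 i * dd h z (0, uv i)) := by
    conv_lhs => rw [hδ]
    rw [map_sum]
    refine Finset.sum_congr rfl fun i _ => ?_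
    rw [map_add, map_smul, map_smul]
    rfl
  rw [h1, Om_apply]
  refine Finset.sum_congr rfl fun i _ => ?_
  change _ = dd h z (0, uv i) * δ.2 i - (-dd h z (uv i, 0)) * δ.1 i
  ring

end Pool.Agent.W_68f289_t6
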