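import Pool.Agent.W_68f289_t6.Om

/-!
The linearised Hamiltonian vector field is infinitesimally symplectic.
-/

open Set Metric Topology MeasureTheory
open scoped NNReal ContDiff

namespace Pool.Agent.W_68f289_t6

open Pool.Agent.W_MP_68f289_gt

variable {n : ℕ}

private lemma OmS_le : (2 : WithTop ℕ∞) ≤ ((⊤ : ℕ∞) : WithTop ℕ∞) :=
  WithTop.coe_le_coe.2 (le_top : (2 : ℕ∞) ≤ ⊤)

private lemma OmS_diff {h : E n → ℝ} (hh : ContDiff ℝ ((⊤ : ℕ∞) : WithTop ℕ∞) h) (z : E n) :
    DifferentiableAt ℝ (XH h) z := by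
  have h1 : DifferentiableAt ℝ (fderiv ℝ h) z :=
    ((hh.of_le OmS_le).fderiv_right (m := 1) (by norm_num)).differentiable
      (by norm_num) z
  have h2 : ∀ u : E n, DifferentiableAt ℝ (fun y => fderiv ℝ h y u) z := fun u =>
    h1.clm_apply (differentiableAt_const u)
  unfold XH dd
  exact (differentiableAt_pi.2 fun i => h2 _).prodMk (differentiableAt_pi.2 fun i => (h2 _).neg)

private lemma OmS_two {h : E n → ℝ} (hh : ContDiff ℝ ((⊤ : ℕ∞) : WithTop ℕ∞) h) (z v w : E n) :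
    Om (fderiv ℝ (XH h) z v) w = fderiv ℝ (fderiv ℝ h) z v w := by
  have h1 : DifferentiableAt ℝ (fderiv ℝ h) z :=
    ((hh.of_le OmS_le).fderiv_right (m := 1) (by norm_num)).differentiable
      (by norm_num) z
  have hl : HasDerivAt (fun s : ℝ => z + s • v) v 0 := by
    have := ((hasDerivAt_id (0 : ℝ)).smul_const v).const_add z
    simpa using this
  have e0 : z + (0 : ℝ) • v = z := by simp
  have ha : HasDerivAt (fun s : ℝ => XH h (z + s • v)) (fderiv ℝ (XH h) z v) 0 := by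
    have h3 : HasFDerivAt (XH h) (fderiv ℝ (XH h) z) (z + (0 : ℝ) • v) := by
      rw [e0]; exact (OmS_diff hh z).hasFDerivAt
    exact h3.comp_hasDerivAt (0 : ℝ) hl
  have hb : HasDerivAt (fun _ : ℝ => w) (0 : E n) 0 := hasDerivAt_const _ _
  have hc := Om_deriv ha hb
  have hd : HasDerivAt (fun s : ℝ => fderiv ℝ h (z + s • v) w) (fderiv ℝ (fderiv ℝ h) z v w) 0 := by
    have h3 : HasFDerivAt (fderiv ℝ h) (fderiv ℝ (fderiv ℝ h) z) (z + (0 : ℝ) • v) := by
      rw [e0]; exact h1.hasFDerivAt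
    have h4 : HasDerivAt (fun s : ℝ => fderiv ℝ h (z + s • v)) (fderiv ℝ (fderiv ℝ h) z v) 0 :=
      h3.comp_hasDerivAt (0 : ℝ) hl
    have h5 := h4.clm_apply (hasDerivAt_const (0 : ℝ) w)
    simpa using h5
  have he : (fun s : ℝ => fderiv ℝ h (z + s • v) w) = fun s : ℝ => Om (XH h (z + s • v)) w := by
    funext s
    exact Om_XH h _ w
  rw [he] at hd
  have h6 := hc.unique hd
  have h7 : Om (XH h (z + (0 : ℝ) • v)) (0 : E n) = 0 := by simp [Om]
  rw [h7, add_zero] at h6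
  exact h6

/-- TASK Sym2. The linearised vector field is infinitesimally symplectic. Proof: by `Om_XH`,
`Om (XH h y) w = fderiv ℝ h y w` for all `y`; differentiate in `y` at `z` in the direction `v`:
`Om (DX v) w = D²h (v) (w)`, where `DX = fderiv ℝ (XH h) z`; the second derivative is symmetric
(`ContDiffAt.isSymmSndFDerivAt` or `second_derivative_symmetric`), and `Om v (DX w) =
- Om (DX w) v = - D²h (w) (v)`. -/
lemma Om_symm {h : E n → ℝ} (hh : ContDiff ℝ ((⊤ : ℕ∞) : WithTop ℕ∞) h) (z v w : E n) :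
    Om (fderiv ℝ (XH h) z v) w + Om v (fderiv ℝ (XH h) z w) = 0 := by
  have h1 : fderiv ℝ (fderiv ℝ h) z v w = fderiv ℝ (fderiv ℝ h) z w v :=
    (hh.contDiffAt.isSymmSndFDerivAt (by simpa using OmS_le)) v w
  rw [Om_anti v, OmS_two hh, OmS_two hh, h1]
  ring

end Pool.Agent.W_68f289_t6
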